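import Pool.Agent.Work.MP_1ce445_ex.Interface

/-! # Block ASM: the assembly of the factorization -/

namespace Pool.Agent.Work.MP_1ce445_ex

open Finset Pool.Agent.Work.MP_1ce445_co_56 Pool.Agent.Work.MP_1ce445_lin

/-- The factors. -/
def ASM_g {V I : Type} [Fintype V] {s : ℕ} {blk : V → Fin s} {Sp : V → V → Prop}
    {μ : I → V → V} {ν : Fin s → V → V} {l : Fin s → ℕ} (h : Dat blk Sp μ ν l) :
    I ⊕ Fin s → SimpleGraph V
  | .inl i =>
    { Adj := fun v w => μ i v = w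
      symm := ⟨fun v w hvw => by rw [← hvw]; exact h.mu_inv i v⟩
      loopless := ⟨fun v hv => h.mu_ne i v hv⟩ }
  | .inr t =>
    { Adj := fun v w => (blk v = t ∧ Sp v w) ∨ (blk v ≠ t ∧ ν t v = w)
      symm := ⟨fun v w hvw => by
        rcases hvw with ⟨hb, hs⟩ | ⟨hb, rfl⟩
        · exact Or.inl ⟨(h.sp_blk v w hs).symm.trans hb, h.sp_symm v w hs⟩
        · exact Or.inr ⟨h.nu_blk t v hb, h.nu_inv t v hb⟩⟩
      loopless := ⟨fun v hv => by
        rcases hv with ⟨_, hs⟩ | ⟨hb, he⟩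
        · exact h.sp_irr v hs
        · exact h.nu_ne t v hb he⟩ }

theorem ASM_adj_inl {V I : Type} [Fintype V] {s : ℕ} {blk : V → Fin s} {Sp : V → V → Prop}
    {μ : I → V → V} {ν : Fin s → V → V} {l : Fin s → ℕ} (h : Dat blk Sp μ ν l) (i : I) (v w : V) :
    (ASM_g h (.inl i)).Adj v w ↔ μ i v = w := Iff.rfl

theorem ASM_adj_inr {V I : Type} [Fintype V] {s : ℕ} {blk : V → Fin s} {Sp : V → V → Prop}
    {μ : I → V → V} {ν : Fin s → V → V} {l : Fin s → ℕ} (h : Dat blk Sp μ ν l) (t : Fin s)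
    (v w : V) :
    (ASM_g h (.inr t)).Adj v w ↔ (blk v = t ∧ Sp v w) ∨ (blk v ≠ t ∧ ν t v = w) := Iff.rfl

theorem ASM_min {V I : Type} [Fintype V] {s : ℕ} {blk : V → Fin s} {Sp : V → V → Prop}
    {μ : I → V → V} {ν : Fin s → V → V} {l : Fin s → ℕ} (h : Dat blk Sp μ ν l)
    (j : I ⊕ Fin s) (v : V) : ∃ w, (ASM_g h j).Adj v w := by
  rcases j with i | t
  · exact ⟨μ i v, (ASM_adj_inl h i v _).2 rfl⟩
  · by_cases hb : blk v = t
    · obtain ⟨w, hw⟩ := h.deg v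
      exact ⟨w, (ASM_adj_inr h t v w).2 (Or.inl ⟨hb, hw⟩)⟩
    · exact ⟨ν t v, (ASM_adj_inr h t v _).2 (Or.inr ⟨hb, rfl⟩)⟩

theorem ASM_fac {V I : Type} [Fintype V] {s : ℕ} {blk : V → Fin s} {Sp : V → V → Prop}
    {μ : I → V → V} {ν : Fin s → V → V} {l : Fin s → ℕ} (h : Dat blk Sp μ ν l) :
    IsFactorization (ASM_g h) := by
  apply IsFactorization.of_adj
  · rintro (i | t) (j | t') v w h1 h2
    · rw [ASM_adj_inl] at h1 h2
      rw [h.d1 i j v (h1.trans h2.symm)]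
    · rw [ASM_adj_inl] at h1
      rw [ASM_adj_inr] at h2
      rcases h2 with ⟨_, hs⟩ | ⟨hb, he⟩
      · exact absurd h1 (h.d4 v w i hs)
      · exact absurd (he.trans h1.symm) (h.d3 t' i v hb)
    · rw [ASM_adj_inr] at h1
      rw [ASM_adj_inl] at h2
      rcases h1 with ⟨_, hs⟩ | ⟨hb, he⟩
      · exact absurd h2 (h.d4 v w j hs)
      · exact absurd (he.trans h2.symm) (h.d3 t j v hb)
    · rw [ASM_adj_inr] at h1 h2
      rcases h1 with ⟨hb, hs⟩ | ⟨hb, he⟩ <;> rcases h2 with ⟨hb', hs'⟩ | ⟨hb', he'⟩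
      · rw [← hb, hb']
      · exact absurd he' (h.d5 v w t' hs hb')
      · exact absurd he (h.d5 v w t hs' hb)
      · rw [h.d2 t t' v hb hb' (he.trans he'.symm)]
  · intro v w hvw
    rcases h.cov v w hvw with hs | ⟨i, hi⟩ | ⟨t, hb, he⟩
    · exact ⟨.inr (blk v), (ASM_adj_inr h _ v w).2 (Or.inl ⟨rfl, hs⟩)⟩
    · exact ⟨.inl i, (ASM_adj_inl h i v w).2 hi⟩
    · exact ⟨.inr t, (ASM_adj_inr h t v w).2 (Or.inr ⟨hb, he⟩)⟩
  · exact ASM_min h

theorem ASM_inl {V I : Type} [Fintype V] [DecidableEq V] {s : ℕ} {blk : V → Fin s}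
    {Sp : V → V → Prop} {μ : I → V → V} {ν : Fin s → V → V} {l : Fin s → ℕ}
    (h : Dat blk Sp μ ν l) (i : I) : Fintype.card V ≤ gammaT (ASM_g h (.inl i)) := by
  refine card_le_gammaT (ASM_min h (.inl i)) (fun v => v) (fun v => μ i v) ?_ ?_
  · intro v w hvw
    have h1 := congrArg (μ i) hvw
    simp only [h.mu_inv] at h1
    exact h1
  · intro x w hw
    exact ((ASM_adj_inl h i x w).1 hw).symm

theorem ASM_inr {V I : Type} [Fintype V] [DecidableEq V] {s : ℕ} {blk : V → Fin s}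
    {Sp : V → V → Prop} {μ : I → V → V} {ν : Fin s → V → V} {l : Fin s → ℕ}
    (h : Dat blk Sp μ ν l) (t : Fin s) :
    Fintype.card V - l t ≤ gammaT (ASM_g h (.inr t)) := by
  obtain ⟨S, hS, hc⟩ := exists_tds (ASM_min h (.inr t))
  rw [← hc]
  have hR1 : ∀ v ∈ Sᶜ, blk v = t := by
    intro v hv
    by_contra hb
    have hb' : blk (ν t v) ≠ t := h.nu_blk t v hb
    obtain ⟨x, hx, ha⟩ := hS (ν t v)
    rcases (ASM_adj_inr h t _ _).1 ha with ⟨hb2, _⟩ | ⟨_, he⟩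
    · exact hb' hb2
    · rw [h.nu_inv t v hb] at he
      rw [Finset.mem_compl] at hv
      exact hv (he ▸ hx)
  have hR2 : ∀ v, blk v = t → ∃ w, Sp v w ∧ w ∉ Sᶜ := by
    intro v hb
    obtain ⟨x, hx, ha⟩ := hS v
    rcases (ASM_adj_inr h t _ _).1 ha with ⟨_, hs⟩ | ⟨hb2, _⟩
    · exact ⟨x, hs, by rw [Finset.mem_compl, not_not]; exact hx⟩
    · exact absurd hb hb2
  have h1 := h.loss t Sᶜ hR1 hR2
  have h2 : (Sᶜ).card + S.card = Fintype.card V := card_compl_add_card S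
  omega

theorem stmt_ASM : Stmt_ASM := by
  intro V I _ _ s blk Sp μ ν l h
  classical
  have h1 := le_P (V := V) (ι := I ⊕ Fin s) (n := Fintype.card V) (k := Fintype.card I + s)
    rfl (by simp) (ASM_fac h)
  refine le_trans ?_ h1
  rw [Fintype.prod_sum_type]
  refine Nat.mul_le_mul ?_ ?_
  · calc Fintype.card V ^ Fintype.card I = ∏ _i : I, Fintype.card V := by
          rw [Finset.prod_const, Finset.card_univ]
      _ ≤ ∏ i : I, gammaT (ASM_g h (.inl i)) :=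
          Finset.prod_le_prod' fun i _ => ASM_inl h i
  · exact Finset.prod_le_prod' fun t _ => ASM_inr h t

end Pool.Agent.Work.MP_1ce445_ex
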