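import Pool.Agent.Work.MP_1ce445_ex.Interface

/-!
Block LOS: the total domination number of a graph with degrees 1 and 2.
-/

set_option autoImplicit false

namespace Pool.Agent.Work.MP_1ce445_ex

open Finset Pool.Agent.Work.MP_1ce445_co_56 Pool.Agent.Work.MP_1ce445_lin

section LOS

set_option linter.unusedSectionVars false

variable {V : Type} [Fintype V] [DecidableEq V]

theorem LOS_one {G : SimpleGraph V} {v x y : V} (hv : dg G v = 1) (hx : G.Adj v x) (hy : G.Adj v y) :
    x = y := by
  classical
  unfold dg at hv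
  obtain ⟨z, hz⟩ := card_eq_one.1 hv
  have h1 : x ∈ ({z} : Finset V) := hz ▸ (by simpa using hx)
  have h2 : y ∈ ({z} : Finset V) := hz ▸ (by simpa using hy)
  rw [mem_singleton.1 h1, mem_singleton.1 h2]

theorem LOS_ex {G : SimpleGraph V} {v : V} (hv : 1 ≤ dg G v) : ∃ x, G.Adj v x := by
  classical
  unfold dg at hv
  obtain ⟨x, hx⟩ := card_pos.1 hv
  exact ⟨x, by simpa using hx⟩

theorem LOS_two {G : SimpleGraph V} {v : V} (hv : dg G v = 2) :
    ∃ x y, x ≠ y ∧ G.Adj v x ∧ G.Adj v y := by
  classical
  unfold dg at hv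
  obtain ⟨x, y, hxy, h⟩ := card_eq_two.1 hv
  have h1 : x ∈ univ.filter (fun w => G.Adj v w) := by rw [h]; simp
  have h2 : y ∈ univ.filter (fun w => G.Adj v w) := by rw [h]; simp
  exact ⟨x, y, hxy, by simpa using h1, by simpa using h2⟩

theorem LOS_sum (G : SimpleGraph V) (h : ∀ v, 1 ≤ dg G v ∧ dg G v ≤ 2) :
    (univ.filter (fun v => dg G v = 1)).card + (univ.filter (fun v => dg G v = 2)).card =
      Fintype.card V := by
  classical
  rw [← card_univ, ← card_filter_add_card_filter_not (s := univ) (fun v => dg G v = 1)]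
  congr 2
  ext v
  have := h v
  simp only [mem_filter, mem_univ, true_and]
  omega

theorem LOS_part1 (G : SimpleGraph V) (h : ∀ v, 1 ≤ dg G v ∧ dg G v ≤ 2) :
    (univ.filter (fun v => dg G v = 2)).card + 3 * gammaT G ≤ 3 * Fintype.card V := by
  classical
  -- the allowed vertices
  set Al : Finset V := univ.filter (fun x => ∀ y, G.Adj x y → dg G y = 2) with hAl
  have hnot : (univ.filter (fun x => ¬ ∀ y, G.Adj x y → dg G y = 2)).card ≤
      (univ.filter (fun v => dg G v = 1)).card := by
    have hc : ∀ x ∈ univ.filter (fun x => ¬ ∀ y, G.Adj x y → dg G y = 2),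
        ∃ y, G.Adj x y ∧ dg G y = 1 := by
      intro x hx
      simp only [mem_filter, mem_univ, true_and] at hx
      push Not at hx
      obtain ⟨y, hy, hy2⟩ := hx
      have := h y
      exact ⟨y, hy, by omega⟩
    choose! f hf using hc
    refine card_le_card_of_injOn f (fun x hx => ?_) (fun x hx x' hx' he => ?_)
    · simp only [coe_filter, mem_univ, true_and, Set.mem_ofPred_eq]
      exact (hf x hx).2
    · have h1 := hf x hx
      have h2 := hf x' hx'
      rw [← he] at h2
      exact LOS_one h1.2 h1.1.symm h2.1.symm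
  have hAlc : (univ.filter (fun v => dg G v = 2)).card ≤ Al.card := by
    have h1 := LOS_sum G h
    have h2 := card_filter_add_card_filter_not (s := (univ : Finset V))
      (fun x => ∀ y, G.Adj x y → dg G y = 2)
    rw [card_univ] at h2
    have h3 : Al.card = (univ.filter (fun x => ∀ y, G.Adj x y → dg G y = 2)).card := rfl
    omega
  -- conflicts
  let Cf : V → Finset V := fun x => univ.filter (fun y => y ≠ x ∧ ∃ z, G.Adj z x ∧ G.Adj z y)
  have hCf : ∀ x, (Cf x).card ≤ 2 := by
    intro x
    have hsub : Cf x ⊆ (univ.filter (fun z => G.Adj x z)).biUnion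
        (fun z => (univ.filter (fun w => G.Adj z w)).erase x) := by
      intro y hy
      simp only [Cf, mem_filter, mem_univ, true_and] at hy
      obtain ⟨hne, z, hzx, hzy⟩ := hy
      simp only [mem_biUnion, mem_filter, mem_univ, true_and, mem_erase]
      exact ⟨z, hzx.symm, hne, hzy⟩
    refine (card_le_card hsub).trans ((card_biUnion_le_card_mul _ _ 1 ?_).trans ?_)
    · intro z hz
      simp only [mem_filter, mem_univ, true_and] at hz
      rw [card_erase_of_mem (by simpa using hz.symm)]
      have := (h z).2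
      unfold dg at this
      omega
    · have := (h x).2
      unfold dg at this
      omega
  -- a maximal set of allowed vertices without conflicts
  obtain ⟨R, hR, hmax⟩ := exists_max_image
    (Al.powerset.filter (fun R => ∀ x ∈ R, ∀ y ∈ R, y ∉ Cf x)) card
    ⟨∅, by simp⟩
  simp only [mem_filter, mem_powerset] at hR hmax
  obtain ⟨hRA, hRc⟩ := hR
  have hcov : Al ⊆ R.biUnion (fun x => insert x (Cf x)) := by
    intro y hy
    by_contra hcon
    simp only [mem_biUnion, mem_insert, not_exists, not_and, not_or] at hcon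
    have hyR : y ∉ R := fun hyR => (hcon y hyR).1 rfl
    have hsym : ∀ x, x ∈ Cf y → y ∈ Cf x := by
      intro x hx
      simp only [Cf, mem_filter, mem_univ, true_and] at hx ⊢
      obtain ⟨hne, z, h1, h2⟩ := hx
      exact ⟨hne.symm, z, h2, h1⟩
    have h1 := hmax (insert y R) ⟨insert_subset hy hRA, by
      intro a ha b hb
      rcases mem_insert.1 ha with ha' | ha'
      · rcases mem_insert.1 hb with hb' | hb'
        · rw [ha', hb']
          simp [Cf]
        · rw [ha']
          exact fun hh => (hcon b hb').2 (hsym b hh)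
      · rcases mem_insert.1 hb with hb' | hb'
        · rw [hb']
          exact (hcon a ha').2
        · exact hRc a ha' b hb'⟩
    rw [card_insert_of_notMem hyR] at h1
    omega
  have hAR : Al.card ≤ R.card * 3 := by
    refine (card_le_card hcov).trans (card_biUnion_le_card_mul _ _ 3 ?_)
    intro x _
    refine (card_insert_le _ _).trans ?_
    have := hCf x
    omega
  -- the complement of `R` is a total dominating set
  have hT : IsTDS G (univ \ R) := by
    intro v
    have hv := h v
    rcases Nat.lt_or_ge (dg G v) 2 with h2 | h2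
    · obtain ⟨x, hx⟩ := LOS_ex hv.1
      refine ⟨x, ?_, hx⟩
      simp only [mem_sdiff, mem_univ, true_and]
      intro hxR
      have h3 := hRA hxR
      simp only [hAl, mem_filter, mem_univ, true_and] at h3
      have := h3 v hx.symm
      omega
    · obtain ⟨x, y, hxy, hx, hy⟩ := LOS_two (le_antisymm hv.2 h2)
      by_cases hxR : x ∈ R
      · refine ⟨y, ?_, hy⟩
        simp only [mem_sdiff, mem_univ, true_and]
        intro hyR
        apply hRc x hxR y hyR
        simp only [Cf, mem_filter, mem_univ, true_and]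
        exact ⟨hxy.symm, v, hx, hy⟩
      · exact ⟨x, by simpa using hxR, hx⟩
  have h4 := gammaT_le_card hT
  have h5 : (univ \ R).card + R.card = Fintype.card V := by
    rw [← card_univ]
    exact card_sdiff_add_card_eq_card (subset_univ R)
  omega

theorem LOS_part2 (G : SimpleGraph V) (h : ∀ v, 1 ≤ dg G v ∧ dg G v ≤ 2)
    (hev : Even (Fintype.card V)) : Even ((univ.filter (fun v => dg G v = 2)).card) := by
  classical
  have h1 := G.sum_degrees_eq_twice_card_edges
  have h2 : ∀ v, G.degree v = 1 + if dg G v = 2 then 1 else 0 := by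
    intro v
    have h3 : G.degree v = dg G v := by
      rw [← SimpleGraph.card_neighborFinset_eq_degree]
      unfold dg
      congr 1
      ext w
      simp
    have := h v
    rw [h3]
    split_ifs with h4 <;> omega
  simp only [h2, sum_add_distrib, sum_const, card_univ, smul_eq_mul, mul_one] at h1
  rw [← card_filter] at h1
  have h5 : Even (Fintype.card V + (univ.filter (fun v => dg G v = 2)).card) := by
    rw [h1]
    exact even_two_mul _
  exact (Nat.even_add.1 h5).1 hev

theorem LOS_part3 (G : SimpleGraph V) (h : ∀ v, 1 ≤ dg G v ∧ dg G v ≤ 2)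
    (h2 : (univ.filter (fun v => dg G v = 2)).card = 2) : gammaT G + 2 ≤ Fintype.card V := by
  classical
  obtain ⟨u, w, huw, hset⟩ := card_eq_two.1 h2
  have hmem : ∀ v, dg G v = 2 ↔ v = u ∨ v = w := by
    intro v
    have : v ∈ univ.filter (fun v => dg G v = 2) ↔ v ∈ ({u, w} : Finset V) := by rw [hset]
    simpa using this
  have hu : dg G u = 2 := (hmem u).2 (Or.inl rfl)
  have hw : dg G w = 2 := (hmem w).2 (Or.inr rfl)
  have h1 : ∀ v, v ≠ u → v ≠ w → dg G v = 1 := by
    intro v hvu hvw
    have h3 := h v
    have h4 : dg G v ≠ 2 := fun hh => by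
      rcases (hmem v).1 hh with rfl | rfl
      · exact hvu rfl
      · exact hvw rfl
    omega
  have hex : ∀ a b : V, dg G a = 2 → ∃ x, G.Adj a x ∧ x ≠ b := by
    intro a b ha
    obtain ⟨x, y, hxy, hx, hy⟩ := LOS_two ha
    by_cases hxb : x = b
    · exact ⟨y, hy, fun hh => hxy (hxb.trans hh.symm)⟩
    · exact ⟨x, hx, hxb⟩
  obtain ⟨x, hux, hxw⟩ := hex u w hu
  obtain ⟨y, hwy, hyu⟩ := hex w u hw
  have hx1 : dg G x = 1 := h1 x hux.ne' hxw
  have hy1 : dg G y = 1 := h1 y hyu hwy.ne'
  have hxu : ∀ v, G.Adj v x → v = u := fun v hv => LOS_one hx1 hv.symm hux.symm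
  have hyw : ∀ v, G.Adj v y → v = w := fun v hv => LOS_one hy1 hv.symm hwy.symm
  have hxy : x ≠ y := by
    rintro rfl
    exact huw (hyw u hux)
  have hT : IsTDS G (univ \ {x, y}) := by
    intro v
    have key : ∃ z, G.Adj v z ∧ z ≠ x ∧ z ≠ y := by
      by_cases hvu : v = u
      · subst hvu
        obtain ⟨z, hz, hzx⟩ := hex v x hu
        refine ⟨z, hz, hzx, ?_⟩
        rintro rfl
        exact huw (hyw v hz)
      · by_cases hvw : v = w
        · subst hvw
          obtain ⟨z, hz, hzy⟩ := hex v y hw
          refine ⟨z, hz, ?_, hzy⟩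
          rintro rfl
          exact huw (hxu v hz).symm
        · obtain ⟨z, hz⟩ := LOS_ex (h v).1
          refine ⟨z, hz, ?_, ?_⟩
          · rintro rfl
            exact hvu (hxu v hz)
          · rintro rfl
            exact hvw (hyw v hz)
    obtain ⟨z, hz, hzx, hzy⟩ := key
    exact ⟨z, by simp [hzx, hzy], hz⟩
  have h4 := gammaT_le_card hT
  have h5 : (univ \ {x, y} : Finset V).card + ({x, y} : Finset V).card = Fintype.card V := by
    rw [← card_univ]
    exact card_sdiff_add_card_eq_card (subset_univ _)
  rw [card_pair hxy] at h5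
  omega

end LOS

theorem stmt_LOS : Stmt_LOS := by
  intro V _ _ G h
  refine ⟨LOS_part1 G h, fun hev => ⟨LOS_part2 G h hev, fun hpos => ?_⟩⟩
  obtain ⟨m, hm⟩ := LOS_part2 G h hev
  have h1 := LOS_part1 G h
  by_cases h2 : (univ.filter (fun v => dg G v = 2)).card = 2
  · exact LOS_part3 G h h2
  · omega

end Pool.Agent.Work.MP_1ce445_ex
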