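import Pool.Agent.Work.MP_1ce445_ex.Interface

/-! # Block B0: the base structure for `h = 3 s` -/

namespace Pool.Agent.Work.MP_1ce445_ex

open Finset Pool.Agent.Work.MP_1ce445_co_56 Pool.Agent.Work.MP_1ce445_lin

theorem B0_val {h : ℕ} [NeZero h] {a : ℕ} (ha : a < h) : ((a : ℕ) : ZMod h).val = a :=
  ZMod.val_natCast_of_lt ha

theorem B0_lt {h s : ℕ} [NeZero h] (hs : h = 3 * s) (x : ZMod h) : x.val / 3 < s := by
  have := ZMod.val_lt x
  omega

theorem B0_card {h s : ℕ} [NeZero h] (hs : h = 3 * s) {q : ℕ} (hq : q < s) (p : ZMod h → Prop)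
    [DecidablePred p] (hp : ∀ y, p y ↔ y.val / 3 = q) : (univ.filter p).card = 3 := by
  classical
  have v0 : ((3 * q : ℕ) : ZMod h).val = 3 * q := B0_val (by omega)
  have v1 : ((3 * q + 1 : ℕ) : ZMod h).val = 3 * q + 1 := B0_val (by omega)
  have v2 : ((3 * q + 2 : ℕ) : ZMod h).val = 3 * q + 2 := B0_val (by omega)
  refine Finset.card_eq_three.2 ⟨((3 * q : ℕ) : ZMod h), ((3 * q + 1 : ℕ) : ZMod h),
    ((3 * q + 2 : ℕ) : ZMod h), ?_, ?_, ?_, ?_⟩
  · intro he
    have := congrArg ZMod.val he
    omega
  · intro he
    have := congrArg ZMod.val he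
    omega
  · intro he
    have := congrArg ZMod.val he
    omega
  · ext y
    simp only [mem_filter, mem_univ, true_and, mem_insert, mem_singleton]
    rw [hp y]
    constructor
    · intro hy
      have h3 : y.val = 3 * q ∨ y.val = 3 * q + 1 ∨ y.val = 3 * q + 2 := by omega
      rcases h3 with h3 | h3 | h3
      · exact Or.inl (ZMod.val_injective h (h3.trans v0.symm))
      · exact Or.inr (Or.inl (ZMod.val_injective h (h3.trans v1.symm)))
      · exact Or.inr (Or.inr (ZMod.val_injective h (h3.trans v2.symm)))
    · rintro (rfl | rfl | rfl)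
      · rw [v0]; omega
      · rw [v1]; omega
      · rw [v2]; omega

/-- another element of the block -/
theorem B0_other {h s : ℕ} [NeZero h] (hs : h = 3 * s) (x : ZMod h) :
    ∃ y : ZMod h, x ≠ y ∧ x.val / 3 = y.val / 3 := by
  have hx := ZMod.val_lt x
  by_cases h0 : x.val = 3 * (x.val / 3)
  · have v1 : ((3 * (x.val / 3) + 1 : ℕ) : ZMod h).val = 3 * (x.val / 3) + 1 :=
      B0_val (by omega)
    refine ⟨((3 * (x.val / 3) + 1 : ℕ) : ZMod h), ?_, ?_⟩
    · intro he
      have := congrArg ZMod.val he
      omega
    · rw [v1]; omega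
  · have v0 : ((3 * (x.val / 3) : ℕ) : ZMod h).val = 3 * (x.val / 3) := B0_val (by omega)
    refine ⟨((3 * (x.val / 3) : ℕ) : ZMod h), ?_, ?_⟩
    · intro he
      have := congrArg ZMod.val he
      omega
    · rw [v0]; omega

/-- the third element of the block -/
theorem B0_third {h s : ℕ} [NeZero h] (hs : h = 3 * s) {x x' : ZMod h} (hne : x ≠ x')
    (hb : x.val / 3 = x'.val / 3) :
    ∃ z : ZMod h, z.val / 3 = x.val / 3 ∧
      ∀ y : ZMod h, y.val / 3 = x.val / 3 → y ≠ z → y = x ∨ y = x' := by
  have hx := ZMod.val_lt x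
  have hx' := ZMod.val_lt x'
  have hv : x.val ≠ x'.val := fun he => hne (ZMod.val_injective h he)
  have vz : ((9 * (x.val / 3) + 3 - x.val - x'.val : ℕ) : ZMod h).val =
      9 * (x.val / 3) + 3 - x.val - x'.val := B0_val (by omega)
  refine ⟨((9 * (x.val / 3) + 3 - x.val - x'.val : ℕ) : ZMod h), ?_, ?_⟩
  · rw [vz]; omega
  · intro y hy hyz
    have hyv : y.val ≠ 9 * (x.val / 3) + 3 - x.val - x'.val := by
      intro he
      exact hyz (ZMod.val_injective h (he.trans vz.symm))
    have h2 : y.val = x.val ∨ y.val = x'.val := by omega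
    rcases h2 with h2 | h2
    · exact Or.inl (ZMod.val_injective h h2)
    · exact Or.inr (ZMod.val_injective h h2)

/-- the special relation -/
def B0_Sp {h : ℕ} : ZMod h ⊕ ZMod h → ZMod h ⊕ ZMod h → Prop
  | .inl x, .inr y => x ≠ y ∧ x.val / 3 = y.val / 3
  | .inr y, .inl x => x ≠ y ∧ x.val / 3 = y.val / 3
  | .inl _, .inl _ => False
  | .inr _, .inr _ => False

/-- the classes -/
def B0_D {h : ℕ} (c : ZMod h) : ZMod h ⊕ ZMod h → ZMod h ⊕ ZMod h
  | .inl x => if x + x = c then .inr x else .inl (c - x)
  | .inr x => if x + x = c then .inl x else .inr (c - x)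

theorem B0_half {h : ℕ} {c x : ZMod h} (hx : ¬ x + x = c) : ¬ (c - x) + (c - x) = c := by
  intro he
  apply hx
  linear_combination -he

theorem B0_loss {h s : ℕ} [NeZero h] (hs : h = 3 * s) (t : ℕ) (R : Finset (ZMod h ⊕ ZMod h))
    (f : ZMod h ⊕ ZMod h → ℕ) (hf1 : ∀ x, f (.inl x) = x.val / 3)
    (hf2 : ∀ x, f (.inr x) = x.val / 3) (h1 : ∀ v ∈ R, f v = t)
    (h2 : ∀ v, f v = t → ∃ w, B0_Sp v w ∧ w ∉ R) : R.card ≤ 2 := by
  classical
  have hA : (R.filter (fun v => v.isLeft = true)).card ≤ 1 := by
    rw [Finset.card_le_one]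
    rintro (x | x) hx (x' | x') hx'
    · rw [mem_filter] at hx hx'
      by_contra hne
      have hxx : x ≠ x' := fun he => hne (by rw [he])
      have b1 := h1 _ hx.1
      have b2 := h1 _ hx'.1
      rw [hf1] at b1 b2
      obtain ⟨z, hz, hz'⟩ := B0_third hs hxx (b1.trans b2.symm)
      obtain ⟨w, hw, hwR⟩ := h2 (.inr z) (by rw [hf2, hz, b1])
      rcases w with y | y
      · obtain ⟨hyz, hyb⟩ : y ≠ z ∧ y.val / 3 = z.val / 3 := hw
        rcases hz' y (hyb.trans hz) hyz with rfl | rfl
        · exact hwR hx.1
        · exact hwR hx'.1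
      · exact hw.elim
    · simp at hx'
    · simp at hx
    · simp at hx
  have hB : (R.filter (fun v => ¬ v.isLeft = true)).card ≤ 1 := by
    rw [Finset.card_le_one]
    rintro (x | x) hx (x' | x') hx'
    · simp at hx
    · simp at hx
    · simp at hx'
    · rw [mem_filter] at hx hx'
      by_contra hne
      have hxx : x ≠ x' := fun he => hne (by rw [he])
      have b1 := h1 _ hx.1
      have b2 := h1 _ hx'.1
      rw [hf2] at b1 b2
      obtain ⟨z, hz, hz'⟩ := B0_third hs hxx (b1.trans b2.symm)
      obtain ⟨w, hw, hwR⟩ := h2 (.inl z) (by rw [hf1, hz, b1])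
      rcases w with y | y
      · exact hw.elim
      · obtain ⟨hyz, hyb⟩ : z ≠ y ∧ z.val / 3 = y.val / 3 := hw
        rcases hz' y (hyb.symm.trans hz) hyz.symm with rfl | rfl
        · exact hwR hx.1
        · exact hwR hx'.1
  have h3 := Finset.card_filter_add_card_filter_not (s := R) (fun v => v.isLeft = true)
  omega

theorem stmt_B0 : Stmt_B0 := by
  intro h s _ hs _
  classical
  let β : ZMod h → Fin s := fun x => ⟨x.val / 3, B0_lt hs x⟩
  have hβ : ∀ x y : ZMod h, β x = β y ↔ x.val / 3 = y.val / 3 := by
    intro x y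
    exact Fin.ext_iff
  have hβt : ∀ (x : ZMod h) (t : Fin s), β x = t ↔ x.val / 3 = t.val := by
    intro x t
    exact Fin.ext_iff
  refine ⟨fun x y => x.val / 3 = y.val / 3, β, β, B0_Sp, B0_D, ?_, ?_⟩
  · refine
      { d_inv := ?_
        d_ne := ?_
        d_dis := ?_
        sp_symm := ?_
        sp_irr := ?_
        sp_blk := ?_
        sp_d := ?_
        inA := ?_
        inB := ?_
        cross := ?_
        deg := ?_
        loss := ?_ }
    · rintro c (x | x)
      · by_cases hx : x + x = c
        · simp [B0_D, hx]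
        · have := B0_half hx
          simp [B0_D, hx, this]
      · by_cases hx : x + x = c
        · simp [B0_D, hx]
        · have := B0_half hx
          simp [B0_D, hx, this]
    · rintro c (x | x) he
      · by_cases hx : x + x = c
        · simp [B0_D, hx] at he
        · rw [B0_D, if_neg hx] at he
          have h1 := Sum.inl_injective he
          exact hx (by linear_combination -h1)
      · by_cases hx : x + x = c
        · simp [B0_D, hx] at he
        · rw [B0_D, if_neg hx] at he
          have h1 := Sum.inr_injective he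
          exact hx (by linear_combination -h1)
    · rintro c c' (x | x) he
      · by_cases hx : x + x = c
        · by_cases hx' : x + x = c'
          · exact hx.symm.trans hx'
          · rw [B0_D, B0_D, if_pos hx, if_neg hx'] at he
            cases he
        · by_cases hx' : x + x = c'
          · rw [B0_D, B0_D, if_neg hx, if_pos hx'] at he
            cases he
          · rw [B0_D, B0_D, if_neg hx, if_neg hx'] at he
            have h1 := Sum.inl_injective he
            linear_combination h1
      · by_cases hx : x + x = c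
        · by_cases hx' : x + x = c'
          · exact hx.symm.trans hx'
          · rw [B0_D, B0_D, if_pos hx, if_neg hx'] at he
            cases he
        · by_cases hx' : x + x = c'
          · rw [B0_D, B0_D, if_neg hx, if_pos hx'] at he
            cases he
          · rw [B0_D, B0_D, if_neg hx, if_neg hx'] at he
            have h1 := Sum.inr_injective he
            linear_combination h1
    · rintro (x | x) (y | y) hs'
      · exact hs'
      · exact hs'
      · exact hs'
      · exact hs'
    · rintro (x | x) hs'
      · exact hs'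
      · exact hs'
    · rintro (x | x) (y | y) hs'
      · exact hs'.elim
      · exact (hβ x y).2 hs'.2
      · exact (hβ x y).2 hs'.2.symm
      · exact hs'.elim
    · rintro (x | x) (y | y) c hs' he
      · exact hs'.elim
      · by_cases hx : x + x = c
        · rw [B0_D, if_pos hx] at he
          exact hs'.1 (Sum.inr_injective he)
        · rw [B0_D, if_neg hx] at he
          cases he
      · by_cases hx : x + x = c
        · rw [B0_D, if_pos hx] at he
          exact hs'.1 (Sum.inl_injective he).symm
        · rw [B0_D, if_neg hx] at he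
          cases he
      · exact hs'.elim
    · intro x x' hne
      refine Or.inr ⟨x + x', ?_⟩
      have hx : ¬ x + x = x + x' := fun he => hne (add_left_cancel he)
      rw [B0_D, if_neg hx, add_sub_cancel_left]
    · intro x x' hne
      refine Or.inr ⟨x + x', ?_⟩
      have hx : ¬ x + x = x + x' := fun he => hne (add_left_cancel he)
      rw [B0_D, if_neg hx, add_sub_cancel_left]
    · intro x y
      constructor
      · intro hxy
        by_cases hne : x = y
        · refine Or.inr ⟨x + x, ?_⟩
          rw [B0_D, if_pos rfl, hne]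
        · exact Or.inl ⟨hne, hxy⟩
      · rintro (hs' | ⟨c, hc⟩)
        · exact hs'.2
        · by_cases hx : x + x = c
          · rw [B0_D, if_pos hx] at hc
            rw [Sum.inr_injective hc]
          · rw [B0_D, if_neg hx] at hc
            cases hc
    · rintro (x | x)
      · obtain ⟨y, hy⟩ := B0_other hs x
        exact ⟨.inr y, hy⟩
      · obtain ⟨y, hy⟩ := B0_other hs x
        exact ⟨.inl y, hy.1.symm, hy.2.symm⟩
    · intro t R h1 h2
      refine B0_loss hs t.val R (fun v => (Sum.elim β β v).val) (fun x => rfl) (fun x => rfl)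
        ?_ ?_
      · intro v hv
        exact congrArg Fin.val (h1 v hv)
      · intro v hv
        exact h2 v (Fin.ext hv)
  · refine
      { reg1 := ?_
        reg2 := ?_
        siz := ?_
        siz4 := ?_ }
    · intro x
      have h1 := B0_card hs (B0_lt hs x) (fun y : ZMod h => x.val / 3 = y.val / 3)
        (fun y => eq_comm)
      convert h1
    · intro y
      have h1 := B0_card hs (B0_lt hs y) (fun x : ZMod h => x.val / 3 = y.val / 3)
        (fun x => Iff.rfl)
      convert h1
    · intro t
      rfl
    · intro t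
      rw [B0_card hs t.isLt _ (fun x => hβt x t)]
      norm_num

end Pool.Agent.Work.MP_1ce445_ex
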