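import Pool.Agent.Work.MP_1ce445_ex.Interface

/-! # Block B2: the base structure for `h = 3 s + 2` -/

namespace Pool.Agent.Work.MP_1ce445_ex

open Finset Pool.Agent.Work.MP_1ce445_co_56 Pool.Agent.Work.MP_1ce445_lin

/-- the involution on representatives -/
def B2_t (v : ℕ) : ℕ :=
  if v = 0 then 2 else if v = 1 then 3 else if v = 2 then 0 else if v = 3 then 1 else v

theorem B2_t_cases (v : ℕ) : (v = 0 ∧ B2_t v = 2) ∨ (v = 1 ∧ B2_t v = 3) ∨
    (v = 2 ∧ B2_t v = 0) ∨ (v = 3 ∧ B2_t v = 1) ∨ (4 ≤ v ∧ B2_t v = v) := by
  unfold B2_t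
  split_ifs <;> omega

/-- the involution -/
def B2_tau {h : ℕ} (x : ZMod h) : ZMod h := ((B2_t x.val : ℕ) : ZMod h)

theorem B2_tau_val {h : ℕ} [NeZero h] (h4 : 4 ≤ h) (x : ZMod h) :
    (B2_tau x).val = B2_t x.val := by
  have h1 := ZMod.val_lt x
  have h2 := B2_t_cases x.val
  exact ZMod.val_natCast_of_lt (by omega)

theorem B2_tau_tau {h : ℕ} [NeZero h] (h4 : 4 ≤ h) (x : ZMod h) : B2_tau (B2_tau x) = x := by
  apply ZMod.val_injective h
  rw [B2_tau_val h4, B2_tau_val h4]
  have h2 := B2_t_cases x.val
  have h3 := B2_t_cases (B2_t x.val)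
  omega

/-- the special relation on the first copy -/
def B2_S {h : ℕ} (x z : ZMod h) : Prop :=
  (x.val + 1) / 3 = (z.val + 1) / 3 ∧ (2 ≤ x.val → x ≠ z)

theorem B2_S_symm {h : ℕ} {x z : ZMod h} (hs : B2_S x z) : B2_S z x := by
  obtain ⟨h1, h2⟩ := hs
  exact ⟨h1.symm, fun h3 he => h2 (by omega) he.symm⟩

theorem B2_S_self {h : ℕ} [NeZero h] (h4 : 4 ≤ h) (x : ZMod h) : ¬ B2_S x (B2_tau x) := by
  rintro ⟨h1, h2⟩
  rw [B2_tau_val h4] at h1
  have h3 := B2_t_cases x.val
  have h5 : 4 ≤ x.val ∧ B2_t x.val = x.val := by omega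
  apply h2 (by omega)
  apply ZMod.val_injective h
  rw [B2_tau_val h4, h5.2]

theorem B2_card_pair {h : ℕ} [NeZero h] {p q : ℕ} (hp : p < h) (hq : q < h) (hne : p ≠ q)
    (P : ZMod h → Prop) [DecidablePred P] (hP : ∀ y, P y ↔ y.val = p ∨ y.val = q) :
    (univ.filter P).card = 2 := by
  classical
  have vp : ((p : ℕ) : ZMod h).val = p := ZMod.val_natCast_of_lt hp
  have vq : ((q : ℕ) : ZMod h).val = q := ZMod.val_natCast_of_lt hq
  refine Finset.card_eq_two.2 ⟨((p : ℕ) : ZMod h), ((q : ℕ) : ZMod h), ?_, ?_⟩
  · intro he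
    have := congrArg ZMod.val he
    omega
  · ext y
    simp only [mem_filter, mem_univ, true_and, mem_insert, mem_singleton]
    rw [hP y]
    constructor
    · rintro (h1 | h1)
      · exact Or.inl (ZMod.val_injective h (h1.trans vp.symm))
      · exact Or.inr (ZMod.val_injective h (h1.trans vq.symm))
    · rintro (rfl | rfl)
      · exact Or.inl vp
      · exact Or.inr vq

theorem B2_card_S {h s : ℕ} [NeZero h] (hs : h = 3 * s + 2) (x : ZMod h)
    (P : ZMod h → Prop) [DecidablePred P] (hP : ∀ y, P y ↔ B2_S x y) :
    (univ.filter P).card = 2 := by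
  have hx := ZMod.val_lt x
  have hiff : ∀ y : ZMod h, P y ↔
      (x.val + 1) / 3 = (y.val + 1) / 3 ∧ (2 ≤ x.val → x.val ≠ y.val) := by
    intro y
    rw [hP y]
    constructor
    · rintro ⟨h1, h2⟩
      exact ⟨h1, fun h3 he => h2 h3 (ZMod.val_injective h he)⟩
    · rintro ⟨h1, h2⟩
      exact ⟨h1, fun h3 he => h2 h3 (congrArg ZMod.val he)⟩
  by_cases h2 : x.val < 2
  · refine B2_card_pair (p := 0) (q := 1) (by omega) (by omega) (by omega) P ?_
    intro y
    rw [hiff y]
    omega
  · have h3 : x.val = 3 * ((x.val + 1) / 3) - 1 ∨ x.val = 3 * ((x.val + 1) / 3) ∨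
        x.val = 3 * ((x.val + 1) / 3) + 1 := by omega
    rcases h3 with h3 | h3 | h3
    · refine B2_card_pair (p := 3 * ((x.val + 1) / 3)) (q := 3 * ((x.val + 1) / 3) + 1)
        (by omega) (by omega) (by omega) P ?_
      intro y
      rw [hiff y]
      omega
    · refine B2_card_pair (p := 3 * ((x.val + 1) / 3) - 1) (q := 3 * ((x.val + 1) / 3) + 1)
        (by omega) (by omega) (by omega) P ?_
      intro y
      rw [hiff y]
      omega
    · refine B2_card_pair (p := 3 * ((x.val + 1) / 3) - 1) (q := 3 * ((x.val + 1) / 3))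
        (by omega) (by omega) (by omega) P ?_
      intro y
      rw [hiff y]
      omega

theorem B2_card_block {h s : ℕ} [NeZero h] (_hs : h = 3 * s + 2) (q : ℕ)
    (P : ZMod h → Prop) [DecidablePred P] (hP : ∀ y, P y → (y.val + 1) / 3 = q) :
    (univ.filter P).card ≤ 4 := by
  classical
  have hsub : univ.filter P ⊆ ({((3 * q - 1 : ℕ) : ZMod h), ((3 * q : ℕ) : ZMod h),
      ((3 * q + 1 : ℕ) : ZMod h)} : Finset (ZMod h)) := by
    intro y hy
    have h1 := hP y (mem_filter.1 hy).2
    have h2 : y.val = 3 * q - 1 ∨ y.val = 3 * q ∨ y.val = 3 * q + 1 := by omega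
    have h3 : ((y.val : ℕ) : ZMod h) = y := ZMod.natCast_zmod_val y
    simp only [mem_insert, mem_singleton]
    rcases h2 with h2 | h2 | h2
    · left; rw [← h2, h3]
    · right; left; rw [← h2, h3]
    · right; right; rw [← h2, h3]
  have h1 := Finset.card_le_card hsub
  have h2 : ({((3 * q - 1 : ℕ) : ZMod h), ((3 * q : ℕ) : ZMod h),
      ((3 * q + 1 : ℕ) : ZMod h)} : Finset (ZMod h)).card ≤ 3 := Finset.card_le_three
  omega

/-- another element of the block -/
theorem B2_other {h s : ℕ} [NeZero h] (hs : h = 3 * s + 2) (x : ZMod h) :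
    ∃ y : ZMod h, B2_S x y := by
  classical
  have h1 := B2_card_S hs x (fun y => B2_S x y) (fun y => Iff.rfl)
  have h2 : (univ.filter (fun y : ZMod h => B2_S x y)).Nonempty := by
    rw [← Finset.card_pos]; omega
  obtain ⟨y, hy⟩ := h2
  exact ⟨y, (mem_filter.1 hy).2⟩

/-- the third element of the block -/
theorem B2_third {h s : ℕ} [NeZero h] (hs : h = 3 * s + 2) {x x' : ZMod h} (hne : x ≠ x')
    (hb : (x.val + 1) / 3 = (x'.val + 1) / 3) :
    ∃ z : ZMod h, (z.val + 1) / 3 = (x.val + 1) / 3 ∧ ∀ y : ZMod h, B2_S y z →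
      y = x ∨ y = x' := by
  have hx := ZMod.val_lt x
  have hx' := ZMod.val_lt x'
  have hv : x.val ≠ x'.val := fun he => hne (ZMod.val_injective h he)
  by_cases h2 : x.val < 2
  · refine ⟨x, rfl, ?_⟩
    rintro y ⟨hy, -⟩
    have h3 : y.val = x.val ∨ y.val = x'.val := by omega
    rcases h3 with h3 | h3
    · exact Or.inl (ZMod.val_injective h h3)
    · exact Or.inr (ZMod.val_injective h h3)
  · have vz : ((9 * ((x.val + 1) / 3) - x.val - x'.val : ℕ) : ZMod h).val =
        9 * ((x.val + 1) / 3) - x.val - x'.val := ZMod.val_natCast_of_lt (by omega)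
    refine ⟨((9 * ((x.val + 1) / 3) - x.val - x'.val : ℕ) : ZMod h), ?_, ?_⟩
    · rw [vz]; omega
    · rintro y ⟨hy, hyz⟩
      rw [vz] at hy
      have hyv : y.val ≠ 9 * ((x.val + 1) / 3) - x.val - x'.val := by
        intro he
        exact hyz (by omega) (ZMod.val_injective h (he.trans vz.symm))
      have h3 : y.val = x.val ∨ y.val = x'.val := by omega
      rcases h3 with h3 | h3
      · exact Or.inl (ZMod.val_injective h h3)
      · exact Or.inr (ZMod.val_injective h h3)

/-- the special relation -/
def B2_Sp {h : ℕ} : ZMod h ⊕ ZMod h → ZMod h ⊕ ZMod h → Prop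
  | .inl x, .inr y => B2_S x (B2_tau y)
  | .inr y, .inl x => B2_S x (B2_tau y)
  | .inl _, .inl _ => False
  | .inr _, .inr _ => False

/-- the classes -/
def B2_D {h : ℕ} (c : ZMod h) : ZMod h ⊕ ZMod h → ZMod h ⊕ ZMod h
  | .inl x => if x + x = c then .inr x else .inl (c - x)
  | .inr x => if x + x = c then .inl x else .inr (c - x)

theorem B2_half {h : ℕ} {c x : ZMod h} (hx : ¬ x + x = c) : ¬ (c - x) + (c - x) = c := by
  intro he
  apply hx
  linear_combination -he

theorem B2_loss {h s : ℕ} [NeZero h] (hs : h = 3 * s + 2) (h4 : 4 ≤ h) (t : ℕ)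
    (R : Finset (ZMod h ⊕ ZMod h))
    (f : ZMod h ⊕ ZMod h → ℕ) (hf1 : ∀ x, f (.inl x) = (x.val + 1) / 3)
    (hf2 : ∀ x, f (.inr x) = ((B2_tau x).val + 1) / 3) (h1 : ∀ v ∈ R, f v = t)
    (h2 : ∀ v, f v = t → ∃ w, B2_Sp v w ∧ w ∉ R) : R.card ≤ 2 := by
  classical
  have hA : (R.filter (fun v => v.isLeft = true)).card ≤ 1 := by
    rw [Finset.card_le_one]
    rintro (x | x) hx (x' | x') hx'
    · rw [mem_filter] at hx hx'
      by_contra hne
      have hxx : x ≠ x' := fun he => hne (by rw [he])
      have b1 := h1 _ hx.1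
      have b2 := h1 _ hx'.1
      rw [hf1] at b1 b2
      obtain ⟨z, hz, hz'⟩ := B2_third hs hxx (b1.trans b2.symm)
      obtain ⟨w, hw, hwR⟩ := h2 (.inr (B2_tau z)) (by rw [hf2, B2_tau_tau h4, hz, b1])
      rcases w with y | y
      · have hy : B2_S y (B2_tau (B2_tau z)) := hw
        rw [B2_tau_tau h4] at hy
        rcases hz' y hy with rfl | rfl
        · exact hwR hx.1
        · exact hwR hx'.1
      · exact hw.elim
    · simp at hx'
    · simp at hx
    · simp at hx
  have hB : (R.filter (fun v => ¬ v.isLeft = true)).card ≤ 1 := by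
    rw [Finset.card_le_one]
    rintro (x | x) hx (x' | x') hx'
    · simp at hx
    · simp at hx
    · simp at hx'
    · rw [mem_filter] at hx hx'
      by_contra hne
      have hxx : B2_tau x ≠ B2_tau x' := by
        intro he
        apply hne
        rw [← B2_tau_tau h4 x, he, B2_tau_tau h4]
      have b1 := h1 _ hx.1
      have b2 := h1 _ hx'.1
      rw [hf2] at b1 b2
      obtain ⟨z, hz, hz'⟩ := B2_third hs hxx (b1.trans b2.symm)
      obtain ⟨w, hw, hwR⟩ := h2 (.inl z) (by rw [hf1, hz, b1])
      rcases w with y | y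
      · exact hw.elim
      · have hy : B2_S z (B2_tau y) := hw
        rcases hz' _ (B2_S_symm hy) with h5 | h5
        · have h6 : y = x := by rw [← B2_tau_tau h4 y, h5, B2_tau_tau h4]
          rw [h6] at hwR
          exact hwR hx.1
        · have h6 : y = x' := by rw [← B2_tau_tau h4 y, h5, B2_tau_tau h4]
          rw [h6] at hwR
          exact hwR hx'.1
  have h3 := Finset.card_filter_add_card_filter_not (s := R) (fun v => v.isLeft = true)
  omega

theorem stmt_B2 : Stmt_B2 := by
  intro h s _ hs hs4
  classical
  have h4 : 4 ≤ h := by omega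
  have hlt : ∀ x : ZMod h, (x.val + 1) / 3 < s + 1 := by
    intro x
    have := ZMod.val_lt x
    omega
  let β : ZMod h → Fin (s + 1) := fun x => ⟨(x.val + 1) / 3, hlt x⟩
  let β' : ZMod h → Fin (s + 1) := fun y => β (B2_tau y)
  have hβ : ∀ x y : ZMod h, β x = β y ↔ (x.val + 1) / 3 = (y.val + 1) / 3 := by
    intro x y
    exact Fin.ext_iff
  refine ⟨fun x y => x = y ∨ B2_S x (B2_tau y), β, β', B2_Sp, B2_D, ?_, ?_⟩
  · refine
      { d_inv := ?_
        d_ne := ?_
        d_dis := ?_
        sp_symm := ?_
        sp_irr := ?_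
        sp_blk := ?_
        sp_d := ?_
        inA := ?_
        inB := ?_
        cross := ?_
        deg := ?_
        loss := ?_ }
    · rintro c (x | x)
      · by_cases hx : x + x = c
        · simp [B2_D, hx]
        · have := B2_half hx
          simp [B2_D, hx, this]
      · by_cases hx : x + x = c
        · simp [B2_D, hx]
        · have := B2_half hx
          simp [B2_D, hx, this]
    · rintro c (x | x) he
      · by_cases hx : x + x = c
        · simp [B2_D, hx] at he
        · rw [B2_D, if_neg hx] at he
          have h1 := Sum.inl_injective he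
          exact hx (by linear_combination -h1)
      · by_cases hx : x + x = c
        · simp [B2_D, hx] at he
        · rw [B2_D, if_neg hx] at he
          have h1 := Sum.inr_injective he
          exact hx (by linear_combination -h1)
    · rintro c c' (x | x) he
      · by_cases hx : x + x = c
        · by_cases hx' : x + x = c'
          · exact hx.symm.trans hx'
          · rw [B2_D, B2_D, if_pos hx, if_neg hx'] at he
            cases he
        · by_cases hx' : x + x = c'
          · rw [B2_D, B2_D, if_neg hx, if_pos hx'] at he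
            cases he
          · rw [B2_D, B2_D, if_neg hx, if_neg hx'] at he
            have h1 := Sum.inl_injective he
            linear_combination h1
      · by_cases hx : x + x = c
        · by_cases hx' : x + x = c'
          · exact hx.symm.trans hx'
          · rw [B2_D, B2_D, if_pos hx, if_neg hx'] at he
            cases he
        · by_cases hx' : x + x = c'
          · rw [B2_D, B2_D, if_neg hx, if_pos hx'] at he
            cases he
          · rw [B2_D, B2_D, if_neg hx, if_neg hx'] at he
            have h1 := Sum.inr_injective he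
            linear_combination h1
    · rintro (x | x) (y | y) hs'
      · exact hs'
      · exact hs'
      · exact hs'
      · exact hs'
    · rintro (x | x) hs'
      · exact hs'
      · exact hs'
    · rintro (x | x) (y | y) hs'
      · exact hs'.elim
      · exact (hβ x (B2_tau y)).2 hs'.1
      · exact (hβ (B2_tau x) y).2 hs'.1.symm
      · exact hs'.elim
    · rintro (x | x) (y | y) c hs' he
      · exact hs'.elim
      · by_cases hx : x + x = c
        · rw [B2_D, if_pos hx] at he
          have h1 := Sum.inr_injective he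
          subst h1
          exact B2_S_self h4 x hs'
        · rw [B2_D, if_neg hx] at he
          cases he
      · by_cases hx : x + x = c
        · rw [B2_D, if_pos hx] at he
          have h1 := Sum.inl_injective he
          subst h1
          exact B2_S_self h4 x hs'
        · rw [B2_D, if_neg hx] at he
          cases he
      · exact hs'.elim
    · intro x x' hne
      refine Or.inr ⟨x + x', ?_⟩
      have hx : ¬ x + x = x + x' := fun he => hne (add_left_cancel he)
      rw [B2_D, if_neg hx, add_sub_cancel_left]
    · intro x x' hne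
      refine Or.inr ⟨x + x', ?_⟩
      have hx : ¬ x + x = x + x' := fun he => hne (add_left_cancel he)
      rw [B2_D, if_neg hx, add_sub_cancel_left]
    · intro x y
      constructor
      · rintro (hxy | hxy)
        · refine Or.inr ⟨x + x, ?_⟩
          rw [B2_D, if_pos rfl, hxy]
        · exact Or.inl hxy
      · rintro (hs' | ⟨c, hc⟩)
        · exact Or.inr hs'
        · by_cases hx : x + x = c
          · rw [B2_D, if_pos hx] at hc
            exact Or.inl (Sum.inr_injective hc)
          · rw [B2_D, if_neg hx] at hc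
            cases hc
    · rintro (x | x)
      · obtain ⟨y, hy⟩ := B2_other hs x
        refine ⟨.inr (B2_tau y), ?_⟩
        show B2_S x (B2_tau (B2_tau y))
        rw [B2_tau_tau h4]
        exact hy
      · obtain ⟨y, hy⟩ := B2_other hs (B2_tau x)
        exact ⟨.inl y, B2_S_symm hy⟩
    · intro t R h1 h2
      refine B2_loss hs h4 t.val R (fun v => (Sum.elim β β' v).val) (fun x => rfl)
        (fun x => rfl) ?_ ?_
      · intro v hv
        exact congrArg Fin.val (h1 v hv)
      · intro v hv
        exact h2 v (Fin.ext hv)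
  · have key1 : ∀ x : ZMod h, (univ.filter (fun y => x = y ∨ B2_S x (B2_tau y))).card = 3 := by
      intro x
      have h1 := B2_card_S hs x (fun y => B2_S x y) (fun y => Iff.rfl)
      have h2 : univ.filter (fun y => x = y ∨ B2_S x (B2_tau y)) =
          insert x ((univ.filter (fun y : ZMod h => B2_S x y)).image B2_tau) := by
        ext y
        simp only [mem_filter, mem_univ, true_and, mem_insert, mem_image]
        constructor
        · rintro (h3 | h3)
          · exact Or.inl h3.symm
          · exact Or.inr ⟨B2_tau y, h3, B2_tau_tau h4 y⟩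
        · rintro (h3 | ⟨z, h3, h5⟩)
          · exact Or.inl h3.symm
          · right
            rw [← h5, B2_tau_tau h4]
            exact h3
      rw [h2, Finset.card_insert_of_notMem, Finset.card_image_of_injective, h1]
      · intro a b hab
        rw [← B2_tau_tau h4 a, hab, B2_tau_tau h4]
      · intro h3
        rw [mem_image] at h3
        obtain ⟨z, h5, h6⟩ := h3
        have h7 : B2_S x z := (mem_filter.1 h5).2
        apply B2_S_self h4 x
        rw [← h6, B2_tau_tau h4, h6]
        exact h7
    have key2 : ∀ y : ZMod h, (univ.filter (fun x => x = y ∨ B2_S x (B2_tau y))).card = 3 := by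
      intro y
      have h1 := B2_card_S hs (B2_tau y) (fun x => B2_S x (B2_tau y))
        (fun x => ⟨B2_S_symm, B2_S_symm⟩)
      have h2 : univ.filter (fun x => x = y ∨ B2_S x (B2_tau y)) =
          insert y (univ.filter (fun x : ZMod h => B2_S x (B2_tau y))) := by
        ext x
        simp only [mem_filter, mem_univ, true_and, mem_insert]
      rw [h2, Finset.card_insert_of_notMem, h1]
      intro h3
      exact B2_S_self h4 y (mem_filter.1 h3).2
    refine
      { reg1 := ?_
        reg2 := ?_
        siz := ?_
        siz4 := ?_ }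
    · intro x
      have h1 := key1 x
      convert h1
    · intro y
      have h1 := key2 y
      convert h1
    · intro t
      have h2 : univ.filter (fun y => β' y = t) =
          (univ.filter (fun x : ZMod h => β x = t)).image B2_tau := by
        ext y
        simp only [mem_filter, mem_univ, true_and, mem_image]
        constructor
        · intro h3
          exact ⟨B2_tau y, h3, B2_tau_tau h4 y⟩
        · rintro ⟨z, h3, h5⟩
          show β (B2_tau y) = t
          rw [← h5, B2_tau_tau h4]
          exact h3
      have h3 : (univ.filter (fun y => β' y = t)).card =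
          (univ.filter (fun x : ZMod h => β x = t)).card := by
        rw [h2]
        apply Finset.card_image_of_injective
        intro a b hab
        rw [← B2_tau_tau h4 a, hab, B2_tau_tau h4]
      convert h3.symm
    · intro t
      have h1 := B2_card_block hs t.val (fun x : ZMod h => β x = t)
        (fun y hy => congrArg Fin.val hy)
      convert h1

end Pool.Agent.Work.MP_1ce445_ex
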