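import Pool.Agent.Work.MP_1ce445_ex.Interface

/-! Block B4 of theorem EX (helper23): the base structure for `h = 3 s + 4`. -/

namespace Pool.Agent.Work.MP_1ce445_ex

open Finset Pool.Agent.Work.MP_1ce445_co_56 Pool.Agent.Work.MP_1ce445_lin

/-- codes of the vertices of one side -/
abbrev B4_K (s : ℕ) : Type := Fin 4 ⊕ (Fin s × Fin 3)

def B4_L (i j : Fin 4) : Bool :=
  decide ((i, j) = (0, 1) ∨ (i, j) = (3, 1) ∨ (i, j) = (1, 3) ∨ (i, j) = (2, 0) ∨ (i, j) = (2, 2) ∨
    (i, j) = (1, 2))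

def B4_W (i j : Fin 4) : Bool := decide ((i, j) = (0, 3) ∨ (i, j) = (3, 0))

def B4_S {s : ℕ} : B4_K s → B4_K s → Prop
  | .inl i, .inl j => B4_L i j = true
  | .inr p, .inr q => p.1 = q.1 ∧ p.2 ≠ q.2
  | .inl _, .inr _ => False
  | .inr _, .inl _ => False

def B4_V {s : ℕ} : B4_K s → B4_K s → Prop
  | .inl i, .inl j => B4_W i j = true
  | .inr _, .inr _ => False
  | .inl _, .inr _ => False
  | .inr _, .inl _ => False

def B4_b {s : ℕ} : B4_K s → Fin (s + 1)
  | .inl _ => 0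
  | .inr p => p.1.succ

theorem B4_V_iff {s : ℕ} (a b : B4_K s) :
    B4_V a b ↔ (a = .inl 0 ∧ b = .inl 3) ∨ (a = .inl 3 ∧ b = .inl 0) := by
  rcases a with i | p
  · rcases b with j | q
    · show B4_W i j = true ↔ _
      simp [B4_W]
    · show False ↔ _
      simp
  · rcases b with j | q
    · show False ↔ _
      simp
    · show False ↔ _
      simp

theorem B4_V_symm {s : ℕ} {a b : B4_K s} (h : B4_V a b) : B4_V b a := by
  rw [B4_V_iff] at h ⊢
  tauto

theorem B4_V_irr {s : ℕ} (a : B4_K s) : ¬ B4_V a a := by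
  rw [B4_V_iff]
  rintro (⟨h1, h2⟩ | ⟨h1, h2⟩)
  · rw [h1] at h2
    simp at h2
  · rw [h1] at h2
    simp at h2

theorem B4_SV {s : ℕ} {a b : B4_K s} (h : B4_S a b) : ¬ B4_V a b := by
  rw [B4_V_iff]
  rintro (⟨rfl, rfl⟩ | ⟨rfl, rfl⟩)
  · have h1 : B4_L 0 3 = true := h
    revert h1
    decide
  · have h1 : B4_L 3 0 = true := h
    revert h1
    decide

theorem B4_S_blk {s : ℕ} {a b : B4_K s} (h : B4_S a b) : B4_b a = B4_b b := by
  rcases a with i | p
  · rcases b with j | q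
    · rfl
    · exact h.elim
  · rcases b with j | q
    · exact h.elim
    · show p.1.succ = q.1.succ
      rw [h.1]

theorem B4_V_blk {s : ℕ} {a b : B4_K s} (h : B4_V a b) : B4_b a = B4_b b := by
  rw [B4_V_iff] at h
  rcases h with ⟨rfl, rfl⟩ | ⟨rfl, rfl⟩
  · rfl
  · rfl

theorem B4_deg_r {s : ℕ} (a : B4_K s) : ∃ b, B4_S a b := by
  rcases a with i | ⟨t, i⟩
  · have h : ∀ i : Fin 4, ∃ j, B4_L i j = true := by decide
    obtain ⟨j, hj⟩ := h i
    exact ⟨.inl j, hj⟩
  · have h : ∀ i : Fin 3, ∃ j, i ≠ j := by decide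
    obtain ⟨j, hj⟩ := h i
    exact ⟨.inr (t, j), rfl, hj⟩

theorem B4_deg_l {s : ℕ} (b : B4_K s) : ∃ a, B4_S a b := by
  rcases b with i | ⟨t, i⟩
  · have h : ∀ j : Fin 4, ∃ i, B4_L i j = true := by decide
    obtain ⟨j, hj⟩ := h i
    exact ⟨.inl j, hj⟩
  · have h : ∀ i : Fin 3, ∃ j, j ≠ i := by decide
    obtain ⟨j, hj⟩ := h i
    exact ⟨.inr (t, j), rfl, hj⟩

theorem B4_cardT {α : Type} [Fintype α] (p : α → Prop) [DecidablePred p] (T : Finset α)
    (h : ∀ a, p a ↔ a ∈ T) : (univ.filter p).card = T.card := by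
  have h1 : univ.filter p = T := by
    ext a
    rw [mem_filter]
    simp [h]
  rw [h1]

theorem B4_cardU {α : Type} [Fintype α] (p : α → Prop) {_ : DecidablePred p} (T : Finset α)
    (h : ∀ a, p a ↔ a ∈ T) : (univ.filter p).card = T.card := B4_cardT p T h

theorem B4_card_r {s : ℕ} (a : B4_K s) [DecidablePred fun b => B4_S a b ∨ B4_V a b] :
    (univ.filter fun b => B4_S a b ∨ B4_V a b).card = 2 := by
  rcases a with i | ⟨t, i⟩
  · have h : ∀ i : Fin 4, (univ.filter fun j => B4_L i j = true ∨ B4_W i j = true).card = 2 := by decide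
    rw [B4_cardT _ ((univ.filter fun j => B4_L i j = true ∨ B4_W i j = true).map
      ⟨(Sum.inl : Fin 4 → B4_K s), Sum.inl_injective⟩), card_map, h i]
    intro b
    rcases b with j | q
    · show B4_L i j = true ∨ B4_W i j = true ↔ _
      simp
    · show False ∨ False ↔ _
      simp
  · have h : ∀ i : Fin 3, (univ.filter fun j => i ≠ j).card = 2 := by decide
    rw [B4_cardT _ ((univ.filter fun j => i ≠ j).map
      ⟨(fun j => Sum.inr (t, j) : Fin 3 → B4_K s), fun j j' hj => by simpa using hj⟩), card_map, h i]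
    intro b
    rcases b with j | ⟨t', j⟩
    · show False ∨ False ↔ _
      simp
    · show (t = t' ∧ i ≠ j) ∨ False ↔ _
      rw [or_false]
      constructor
      · rintro ⟨rfl, h2⟩
        exact mem_map.2 ⟨j, mem_filter.2 ⟨mem_univ _, h2⟩, rfl⟩
      · intro h2
        obtain ⟨j', h3, h4⟩ := mem_map.1 h2
        have h5 : (Sum.inr (t, j') : B4_K s) = Sum.inr (t', j) := h4
        simp only [Sum.inr.injEq, Prod.mk.injEq] at h5
        exact ⟨h5.1, h5.2 ▸ (mem_filter.1 h3).2⟩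

theorem B4_card_l {s : ℕ} (b : B4_K s) [DecidablePred fun a => B4_S a b ∨ B4_V a b] :
    (univ.filter fun a => B4_S a b ∨ B4_V a b).card = 2 := by
  rcases b with i | ⟨t, i⟩
  · have h : ∀ j : Fin 4, (univ.filter fun i => B4_L i j = true ∨ B4_W i j = true).card = 2 := by decide
    rw [B4_cardT _ ((univ.filter fun j => B4_L j i = true ∨ B4_W j i = true).map
      ⟨(Sum.inl : Fin 4 → B4_K s), Sum.inl_injective⟩), card_map, h i]
    intro b
    rcases b with j | q
    · show B4_L j i = true ∨ B4_W j i = true ↔ _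
      simp
    · show False ∨ False ↔ _
      simp
  · have h : ∀ i : Fin 3, (univ.filter fun j => j ≠ i).card = 2 := by decide
    rw [B4_cardT _ ((univ.filter fun j => j ≠ i).map
      ⟨(fun j => Sum.inr (t, j) : Fin 3 → B4_K s), fun j j' hj => by simpa using hj⟩), card_map, h i]
    intro b
    rcases b with j | ⟨t', j⟩
    · show False ∨ False ↔ _
      simp
    · show (t' = t ∧ j ≠ i) ∨ False ↔ _
      rw [or_false]
      constructor
      · rintro ⟨rfl, h2⟩
        exact mem_map.2 ⟨j, mem_filter.2 ⟨mem_univ _, h2⟩, rfl⟩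
      · intro h2
        obtain ⟨j', h3, h4⟩ := mem_map.1 h2
        have h5 : (Sum.inr (t, j') : B4_K s) = Sum.inr (t', j) := h4
        simp only [Sum.inr.injEq, Prod.mk.injEq] at h5
        exact ⟨h5.1.symm, h5.2 ▸ (mem_filter.1 h3).2⟩

theorem B4_card_b {s : ℕ} (t : Fin (s + 1)) [DecidablePred fun k : B4_K s => B4_b k = t] :
    (univ.filter fun k : B4_K s => B4_b k = t).card ≤ 4 := by
  refine Fin.cases (motive := fun t => ∀ [DecidablePred fun k : B4_K s => B4_b k = t],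
    (univ.filter fun k : B4_K s => B4_b k = t).card ≤ 4) ?_ ?_ t
  · intro _
    rw [B4_cardT _ ((univ : Finset (Fin 4)).map ⟨(Sum.inl : Fin 4 → B4_K s), Sum.inl_injective⟩), card_map]
    · simp
    · intro b
      rcases b with j | ⟨t', j⟩
      · simp [B4_b]
      · show t'.succ = 0 ↔ _
        simp
  · intro t _
    rw [B4_cardT _ ((univ : Finset (Fin 3)).map
      ⟨(fun j => Sum.inr (t, j) : Fin 3 → B4_K s), fun j j' hj => by simpa using hj⟩), card_map]
    · simp
    · intro b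
      rcases b with j | ⟨t', j⟩
      · show 0 = t.succ ↔ _
        simp [eq_comm]
      · show t'.succ = t.succ ↔ _
        constructor
        · intro h1
          have h2 : t' = t := Fin.succ_injective _ h1
          rw [h2]
          exact mem_map.2 ⟨j, mem_univ _, rfl⟩
        · intro h1
          obtain ⟨j', -, h4⟩ := mem_map.1 h1
          have h5 : (Sum.inr (t, j') : B4_K s) = Sum.inr (t', j) := h4
          simp only [Sum.inr.injEq, Prod.mk.injEq] at h5
          rw [h5.1]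

/-! ### the special relation and the classes -/

def B4_Sp {s : ℕ} {α : Type} (kA kB : α ≃ B4_K s) : α ⊕ α → α ⊕ α → Prop
  | .inl x, .inl x' => B4_V (kA x) (kA x')
  | .inr y, .inr y' => B4_V (kB y) (kB y')
  | .inl x, .inr y => B4_S (kA x) (kB y)
  | .inr y, .inl x => B4_S (kA x) (kB y)

def B4_D {h : ℕ} (c : ZMod h) : ZMod h ⊕ ZMod h → ZMod h ⊕ ZMod h
  | .inl x => if c = 3 ∧ x = 0 then .inr (-1) else if c = 3 ∧ x = 3 then .inr 4 else
      if x + x = c then .inr x else .inl (c - x)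
  | .inr y => if c = 3 ∧ y = -1 then .inl 0 else if c = 3 ∧ y = 4 then .inl 3 else
      if y + y = c then .inl y else .inr (c - y)

section D

variable {h : ℕ} (n1 : (1 : ZMod h) ≠ 0) (n3 : (3 : ZMod h) ≠ 0) (n5 : (5 : ZMod h) ≠ 0)

theorem B4_D_ll (c x w : ZMod h) :
    B4_D c (.inl x) = .inl w ↔ x + w = c ∧ x ≠ w ∧ ¬ (c = 3 ∧ (x = 0 ∨ x = 3)) := by
  unfold B4_D
  by_cases h1 : c = 3 ∧ x = 0
  · simp only [if_pos h1]
    constructor
    · intro h2
      cases h2
    · rintro ⟨-, -, h2⟩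
      exact absurd ⟨h1.1, Or.inl h1.2⟩ h2
  simp only [if_neg h1]
  by_cases h2 : c = 3 ∧ x = 3
  · simp only [if_pos h2]
    constructor
    · intro h3
      cases h3
    · rintro ⟨-, -, h3⟩
      exact absurd ⟨h2.1, Or.inr h2.2⟩ h3
  simp only [if_neg h2]
  by_cases h3 : x + x = c
  · simp only [if_pos h3]
    constructor
    · intro h4
      cases h4
    · rintro ⟨h4, h5, -⟩
      exact absurd (add_left_cancel (h3.trans h4.symm)) h5
  simp only [if_neg h3]
  rw [Sum.inl.injEq]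
  constructor
  · rintro rfl
    refine ⟨by ring, ?_, ?_⟩
    · intro h4
      apply h3
      linear_combination h4
    · rintro ⟨h4, h5 | h5⟩
      · exact h1 ⟨h4, h5⟩
      · exact h2 ⟨h4, h5⟩
  · rintro ⟨h4, -, -⟩
    rw [← h4]
    ring

theorem B4_D_rr (c x w : ZMod h) :
    B4_D c (.inr x) = .inr w ↔ x + w = c ∧ x ≠ w ∧ ¬ (c = 3 ∧ (x = -1 ∨ x = 4)) := by
  unfold B4_D
  by_cases h1 : c = 3 ∧ x = -1
  · simp only [if_pos h1]
    constructor
    · intro h2
      cases h2
    · rintro ⟨-, -, h2⟩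
      exact absurd ⟨h1.1, Or.inl h1.2⟩ h2
  simp only [if_neg h1]
  by_cases h2 : c = 3 ∧ x = 4
  · simp only [if_pos h2]
    constructor
    · intro h3
      cases h3
    · rintro ⟨-, -, h3⟩
      exact absurd ⟨h2.1, Or.inr h2.2⟩ h3
  simp only [if_neg h2]
  by_cases h3 : x + x = c
  · simp only [if_pos h3]
    constructor
    · intro h4
      cases h4
    · rintro ⟨h4, h5, -⟩
      exact absurd (add_left_cancel (h3.trans h4.symm)) h5
  simp only [if_neg h3]
  rw [Sum.inr.injEq]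
  constructor
  · rintro rfl
    refine ⟨by ring, ?_, ?_⟩
    · intro h4
      apply h3
      linear_combination h4
    · rintro ⟨h4, h5 | h5⟩
      · exact h1 ⟨h4, h5⟩
      · exact h2 ⟨h4, h5⟩
  · rintro ⟨h4, -, -⟩
    rw [← h4]
    ring

include n3 in
theorem B4_D_lr (c x w : ZMod h) : B4_D c (.inl x) = .inr w ↔
    (x = w ∧ x + x = c) ∨ (c = 3 ∧ ((x = 0 ∧ w = -1) ∨ (x = 3 ∧ w = 4))) := by
  unfold B4_D
  by_cases h1 : c = 3 ∧ x = 0
  · simp only [if_pos h1]
    rw [Sum.inr.injEq]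
    obtain ⟨rfl, rfl⟩ := h1
    constructor
    · intro h2
      exact Or.inr ⟨rfl, Or.inl ⟨rfl, h2.symm⟩⟩
    · rintro (⟨-, h2⟩ | ⟨-, h2 | h2⟩)
      · exact absurd (by linear_combination -h2) n3
      · exact h2.2.symm
      · exact absurd h2.1.symm n3
  simp only [if_neg h1]
  by_cases h2 : c = 3 ∧ x = 3
  · simp only [if_pos h2]
    rw [Sum.inr.injEq]
    obtain ⟨rfl, rfl⟩ := h2
    constructor
    · intro h3
      exact Or.inr ⟨rfl, Or.inr ⟨rfl, h3.symm⟩⟩
    · rintro (⟨-, h3⟩ | ⟨-, h3 | h3⟩)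
      · exact absurd (by linear_combination h3) n3
      · exact absurd h3.1 n3
      · exact h3.2.symm
  simp only [if_neg h2]
  by_cases h3 : x + x = c
  · simp only [if_pos h3]
    rw [Sum.inr.injEq]
    constructor
    · intro h4
      exact Or.inl ⟨h4, h3⟩
    · rintro (⟨h4, -⟩ | ⟨h4, h5 | h5⟩)
      · exact h4
      · exact absurd ⟨h4, h5.1⟩ h1
      · exact absurd ⟨h4, h5.1⟩ h2
  simp only [if_neg h3]
  constructor
  · intro h4
    cases h4
  · rintro (⟨-, h4⟩ | ⟨h4, h5 | h5⟩)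
    · exact absurd h4 h3
    · exact absurd ⟨h4, h5.1⟩ h1
    · exact absurd ⟨h4, h5.1⟩ h2

include n5 in
theorem B4_D_rl (c x w : ZMod h) : B4_D c (.inr x) = .inl w ↔
    (x = w ∧ x + x = c) ∨ (c = 3 ∧ ((x = -1 ∧ w = 0) ∨ (x = 4 ∧ w = 3))) := by
  unfold B4_D
  by_cases h1 : c = 3 ∧ x = -1
  · simp only [if_pos h1]
    rw [Sum.inl.injEq]
    obtain ⟨rfl, rfl⟩ := h1
    constructor
    · intro h2
      exact Or.inr ⟨rfl, Or.inl ⟨rfl, h2.symm⟩⟩
    · rintro (⟨-, h2⟩ | ⟨-, h2 | h2⟩)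
      · exact absurd (by linear_combination -h2) n5
      · exact h2.2.symm
      · exact absurd (by linear_combination -h2.1) n5
  simp only [if_neg h1]
  by_cases h2 : c = 3 ∧ x = 4
  · simp only [if_pos h2]
    rw [Sum.inl.injEq]
    obtain ⟨rfl, rfl⟩ := h2
    constructor
    · intro h3
      exact Or.inr ⟨rfl, Or.inr ⟨rfl, h3.symm⟩⟩
    · rintro (⟨-, h3⟩ | ⟨-, h3 | h3⟩)
      · exact absurd (by linear_combination h3) n5
      · exact absurd (by linear_combination h3.1) n5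
      · exact h3.2.symm
  simp only [if_neg h2]
  by_cases h3 : x + x = c
  · simp only [if_pos h3]
    rw [Sum.inl.injEq]
    constructor
    · intro h4
      exact Or.inl ⟨h4, h3⟩
    · rintro (⟨h4, -⟩ | ⟨h4, h5 | h5⟩)
      · exact h4
      · exact absurd ⟨h4, h5.1⟩ h1
      · exact absurd ⟨h4, h5.1⟩ h2
  simp only [if_neg h3]
  constructor
  · intro h4
    cases h4
  · rintro (⟨-, h4⟩ | ⟨h4, h5 | h5⟩)
    · exact absurd h4 h3
    · exact absurd ⟨h4, h5.1⟩ h1
    · exact absurd ⟨h4, h5.1⟩ h2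

include n3 n5 in
theorem B4_D_symm (c : ZMod h) (v w : ZMod h ⊕ ZMod h) (hvw : B4_D c v = w) : B4_D c w = v := by
  rcases v with x | x
  · rcases w with y | y
    · rw [B4_D_ll] at hvw ⊢
      obtain ⟨h1, h2, h3⟩ := hvw
      refine ⟨by rw [add_comm]; exact h1, h2.symm, ?_⟩
      rintro ⟨rfl, h4 | h4⟩
      · exact h3 ⟨rfl, Or.inr (by rw [← h1, h4, add_zero])⟩
      · exact h3 ⟨rfl, Or.inl (by linear_combination h1 - h4)⟩
    · rw [B4_D_lr n3] at hvw
      rw [B4_D_rl n5]
      rcases hvw with ⟨rfl, h1⟩ | ⟨h1, h2⟩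
      · exact Or.inl ⟨rfl, h1⟩
      · exact Or.inr ⟨h1, by tauto⟩
  · rcases w with y | y
    · rw [B4_D_rl n5] at hvw
      rw [B4_D_lr n3]
      rcases hvw with ⟨rfl, h1⟩ | ⟨h1, h2⟩
      · exact Or.inl ⟨rfl, h1⟩
      · exact Or.inr ⟨h1, by tauto⟩
    · rw [B4_D_rr] at hvw ⊢
      obtain ⟨h1, h2, h3⟩ := hvw
      refine ⟨by rw [add_comm]; exact h1, h2.symm, ?_⟩
      rintro ⟨rfl, h4 | h4⟩
      · exact h3 ⟨rfl, Or.inr (by linear_combination h1 - h4)⟩
      · exact h3 ⟨rfl, Or.inl (by linear_combination h1 - h4)⟩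

include n1 n3 n5 in
theorem B4_D_dis (c c' : ZMod h) (v : ZMod h ⊕ ZMod h) (hv : B4_D c v = B4_D c' v) : c = c' := by
  obtain ⟨w, hw⟩ : ∃ w, B4_D c' v = w := ⟨_, rfl⟩
  rw [hw] at hv
  rcases v with x | x
  · rcases w with y | y
    · rw [B4_D_ll] at hv hw
      exact hv.1.symm.trans hw.1
    · rw [B4_D_lr n3] at hv hw
      rcases hv with ⟨h1, h2⟩ | ⟨h1, h2⟩
      · rcases hw with ⟨h3, h4⟩ | ⟨h3, ⟨h4, h5⟩ | ⟨h4, h5⟩⟩
        · exact h2.symm.trans h4
        · exact absurd (by linear_combination h1 - h4 + h5) n1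
        · exact absurd (by linear_combination -h1 + h4 - h5) n1
      · rcases hw with ⟨h3, h4⟩ | ⟨h3, h4⟩
        · rcases h2 with ⟨h4, h5⟩ | ⟨h4, h5⟩
          · exact absurd (by linear_combination h3 - h4 + h5) n1
          · exact absurd (by linear_combination -h3 + h4 - h5) n1
        · exact h1.trans h3.symm
  · rcases w with y | y
    · rw [B4_D_rl n5] at hv hw
      rcases hv with ⟨h1, h2⟩ | ⟨h1, h2⟩
      · rcases hw with ⟨h3, h4⟩ | ⟨h3, ⟨h4, h5⟩ | ⟨h4, h5⟩⟩
        · exact h2.symm.trans h4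
        · exact absurd (by linear_combination -h1 + h4 - h5) n1
        · exact absurd (by linear_combination h1 - h4 + h5) n1
      · rcases hw with ⟨h3, h4⟩ | ⟨h3, h4⟩
        · rcases h2 with ⟨h4, h5⟩ | ⟨h4, h5⟩
          · exact absurd (by linear_combination -h3 + h4 - h5) n1
          · exact absurd (by linear_combination h3 - h4 + h5) n1
        · exact h1.trans h3.symm
    · rw [B4_D_rr] at hv hw
      exact hv.1.symm.trans hw.1

end D

/-! ### the loss -/

theorem B4_loss_gen {V P : Type} [Fintype P] [DecidableEq P] {n : ℕ} (blk : V → Fin n) (Sp : V → V → Prop)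
    (κ : P → V) (E : P → P → Bool) (t : Fin n) (m : ℕ) (hb : ∀ p, blk (κ p) = t)
    (hs : ∀ v, blk v = t → ∃ p, κ p = v) (hE : ∀ p w, Sp (κ p) w → ∃ q, w = κ q ∧ E p q = true)
    (hf : ∀ R : Finset P, (∀ p, ∃ q, E p q = true ∧ q ∉ R) → R.card ≤ m) (R : Finset V)
    (h1 : ∀ v ∈ R, blk v = t) (h2 : ∀ v, blk v = t → ∃ w, Sp v w ∧ w ∉ R) : R.card ≤ m := by
  classical
  have h3 : R ⊆ (univ.filter fun p => κ p ∈ R).image κ := by
    intro v hv
    obtain ⟨p, rfl⟩ := hs v (h1 v hv)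
    exact mem_image_of_mem _ (mem_filter.2 ⟨mem_univ _, hv⟩)
  refine (card_le_card h3).trans (card_image_le.trans (hf _ fun p => ?_))
  obtain ⟨w, hw, hwR⟩ := h2 (κ p) (hb p)
  obtain ⟨q, rfl, hq⟩ := hE p w hw
  refine ⟨q, hq, fun h4 => hwR (mem_filter.1 h4).2⟩

def B4_E4 (p q : Bool × Fin 4) : Bool :=
  if p.1 = q.1 then B4_W p.2 q.2 else if p.1 = false then B4_L p.2 q.2 else B4_L q.2 p.2

def B4_E3 (p q : Bool × Fin 3) : Bool := decide (p.1 ≠ q.1 ∧ p.2 ≠ q.2)

theorem B4_fin4 : ∀ R : Finset (Bool × Fin 4), (∀ p, ∃ q, B4_E4 p q = true ∧ q ∉ R) → R.card ≤ 3 := by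
  decide +kernel

theorem B4_fin3 : ∀ R : Finset (Bool × Fin 3), (∀ p, ∃ q, B4_E3 p q = true ∧ q ∉ R) → R.card ≤ 2 := by
  decide +kernel

theorem B4_loss0 {s : ℕ} {α : Type} (kA kB : α ≃ B4_K s) (R : Finset (α ⊕ α))
    (h1 : ∀ v ∈ R, Sum.elim (fun x => B4_b (kA x)) (fun y => B4_b (kB y)) v = 0)
    (h2 : ∀ v, Sum.elim (fun x => B4_b (kA x)) (fun y => B4_b (kB y)) v = 0 → ∃ w, B4_Sp kA kB v w ∧ w ∉ R) :
    R.card ≤ 3 := by
  refine B4_loss_gen (P := Bool × Fin 4) _ (B4_Sp kA kB)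
    (fun p => cond p.1 (.inr (kB.symm (.inl p.2))) (.inl (kA.symm (.inl p.2))))
    B4_E4 0 3 ?_ ?_ ?_ B4_fin4 R h1 h2
  · rintro ⟨b, i⟩
    cases b
    · show B4_b (kA (kA.symm _)) = _
      rw [Equiv.apply_symm_apply]
      rfl
    · show B4_b (kB (kB.symm _)) = _
      rw [Equiv.apply_symm_apply]
      rfl
  · rintro (x | y) hv
    · have hv' : B4_b (kA x) = 0 := hv
      rcases hk : kA x with i | ⟨t, i⟩
      · exact ⟨(false, i), congrArg Sum.inl (kA.symm_apply_eq.2 hk.symm)⟩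
      · rw [hk] at hv'
        exact absurd hv' (Fin.succ_ne_zero t)
    · have hv' : B4_b (kB y) = 0 := hv
      rcases hk : kB y with i | ⟨t, i⟩
      · exact ⟨(true, i), congrArg Sum.inr (kB.symm_apply_eq.2 hk.symm)⟩
      · rw [hk] at hv'
        exact absurd hv' (Fin.succ_ne_zero t)
  · rintro ⟨b, i⟩ w hw
    cases b
    · rcases w with x | y
      · have hw' : B4_V (kA (kA.symm (.inl i))) (kA x) := hw
        rw [Equiv.apply_symm_apply] at hw'
        rcases hk : kA x with j | q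
        · rw [hk] at hw'
          exact ⟨(false, j), congrArg Sum.inl (kA.symm_apply_eq.2 hk.symm).symm, hw'⟩
        · rw [hk] at hw'
          exact hw'.elim
      · have hw' : B4_S (kA (kA.symm (.inl i))) (kB y) := hw
        rw [Equiv.apply_symm_apply] at hw'
        rcases hk : kB y with j | q
        · rw [hk] at hw'
          exact ⟨(true, j), congrArg Sum.inr (kB.symm_apply_eq.2 hk.symm).symm, hw'⟩
        · rw [hk] at hw'
          exact hw'.elim
    · rcases w with x | y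
      · have hw' : B4_S (kA x) (kB (kB.symm (.inl i))) := hw
        rw [Equiv.apply_symm_apply] at hw'
        rcases hk : kA x with j | q
        · rw [hk] at hw'
          exact ⟨(false, j), congrArg Sum.inl (kA.symm_apply_eq.2 hk.symm).symm, hw'⟩
        · rw [hk] at hw'
          exact hw'.elim
      · have hw' : B4_V (kB (kB.symm (.inl i))) (kB y) := hw
        rw [Equiv.apply_symm_apply] at hw'
        rcases hk : kB y with j | q
        · rw [hk] at hw'
          exact ⟨(true, j), congrArg Sum.inr (kB.symm_apply_eq.2 hk.symm).symm, hw'⟩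
        · rw [hk] at hw'
          exact hw'.elim

theorem B4_loss1 {s : ℕ} {α : Type} (kA kB : α ≃ B4_K s) (t : Fin s) (R : Finset (α ⊕ α))
    (h1 : ∀ v ∈ R, Sum.elim (fun x => B4_b (kA x)) (fun y => B4_b (kB y)) v = t.succ)
    (h2 : ∀ v, Sum.elim (fun x => B4_b (kA x)) (fun y => B4_b (kB y)) v = t.succ →
      ∃ w, B4_Sp kA kB v w ∧ w ∉ R) :
    R.card ≤ 2 := by
  refine B4_loss_gen (P := Bool × Fin 3) _ (B4_Sp kA kB)
    (fun p => cond p.1 (.inr (kB.symm (.inr (t, p.2)))) (.inl (kA.symm (.inr (t, p.2)))))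
    B4_E3 t.succ 2 ?_ ?_ ?_ B4_fin3 R h1 h2
  · rintro ⟨b, i⟩
    cases b
    · show B4_b (kA (kA.symm _)) = _
      rw [Equiv.apply_symm_apply]
      rfl
    · show B4_b (kB (kB.symm _)) = _
      rw [Equiv.apply_symm_apply]
      rfl
  · rintro (x | y) hv
    · have hv' : B4_b (kA x) = t.succ := hv
      rcases hk : kA x with i | ⟨t', i⟩
      · rw [hk] at hv'
        exact absurd hv'.symm (Fin.succ_ne_zero t)
      · rw [hk] at hv'
        have h3 : t' = t := Fin.succ_injective _ hv'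
        rw [h3] at hk
        exact ⟨(false, i), congrArg Sum.inl (kA.symm_apply_eq.2 hk.symm)⟩
    · have hv' : B4_b (kB y) = t.succ := hv
      rcases hk : kB y with i | ⟨t', i⟩
      · rw [hk] at hv'
        exact absurd hv'.symm (Fin.succ_ne_zero t)
      · rw [hk] at hv'
        have h3 : t' = t := Fin.succ_injective _ hv'
        rw [h3] at hk
        exact ⟨(true, i), congrArg Sum.inr (kB.symm_apply_eq.2 hk.symm)⟩
  · rintro ⟨b, i⟩ w hw
    cases b
    · rcases w with x | y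
      · have hw' : B4_V (kA (kA.symm (.inr (t, i)))) (kA x) := hw
        rw [Equiv.apply_symm_apply, B4_V_iff] at hw'
        simp at hw'
      · have hw' : B4_S (kA (kA.symm (.inr (t, i)))) (kB y) := hw
        rw [Equiv.apply_symm_apply] at hw'
        rcases hk : kB y with j | ⟨t', j⟩
        · rw [hk] at hw'
          exact hw'.elim
        · rw [hk] at hw'
          obtain ⟨h3, h4⟩ := hw'
          have h3' : t = t' := h3
          rw [← h3'] at hk
          exact ⟨(true, j), congrArg Sum.inr (kB.symm_apply_eq.2 hk.symm).symm, by simpa [B4_E3] using h4⟩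
    · rcases w with x | y
      · have hw' : B4_S (kA x) (kB (kB.symm (.inr (t, i)))) := hw
        rw [Equiv.apply_symm_apply] at hw'
        rcases hk : kA x with j | ⟨t', j⟩
        · rw [hk] at hw'
          exact hw'.elim
        · rw [hk] at hw'
          obtain ⟨h3, h4⟩ := hw'
          have h3' : t' = t := h3
          rw [h3'] at hk
          exact ⟨(false, j), congrArg Sum.inl (kA.symm_apply_eq.2 hk.symm).symm, by have h9 : i ≠ j := fun h9 => h4 h9.symm; simpa [B4_E3] using h9⟩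
      · have hw' : B4_V (kB (kB.symm (.inr (t, i)))) (kB y) := hw
        rw [Equiv.apply_symm_apply, B4_V_iff] at hw'
        simp at hw'

/-! ### the abstract form -/

theorem B4_abs {h s : ℕ} [NeZero h] (n1 : (1 : ZMod h) ≠ 0) (n3 : (3 : ZMod h) ≠ 0) (n5 : (5 : ZMod h) ≠ 0)
    (kA kB : ZMod h ≃ B4_K s) (hA0 : kA 0 = .inl 0) (hA3 : kA 3 = .inl 3) (hB0 : kB 4 = .inl 0)
    (hB3 : kB (-1) = .inl 3) (hE : ∀ x, ¬ B4_S (kA x) (kB x) ∧ ¬ B4_V (kA x) (kB x)) :
    Bas (ZMod h) (s + 1) (fun x y => x = y ∨ B4_S (kA x) (kB y) ∨ B4_V (kA x) (kB y))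
      (fun x => B4_b (kA x)) (fun y => B4_b (kB y)) (B4_Sp kA kB) B4_D (fun t => if t = 0 then 3 else 2) ∧
    Cnt (ZMod h) (s + 1) (fun x y => x = y ∨ B4_S (kA x) (kB y) ∨ B4_V (kA x) (kB y))
      (fun x => B4_b (kA x)) (fun y => B4_b (kB y)) := by
  have iA0 : ∀ x, kA x = .inl 0 ↔ x = 0 := fun x => by rw [← hA0]; exact kA.apply_eq_iff_eq
  have iA3 : ∀ x, kA x = .inl 3 ↔ x = 3 := fun x => by rw [← hA3]; exact kA.apply_eq_iff_eq
  have iB0 : ∀ x, kB x = .inl 0 ↔ x = 4 := fun x => by rw [← hB0]; exact kB.apply_eq_iff_eq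
  have iB3 : ∀ x, kB x = .inl 3 ↔ x = -1 := fun x => by rw [← hB3]; exact kB.apply_eq_iff_eq
  have vAA : ∀ x x', B4_V (kA x) (kA x') ↔ (x = 0 ∧ x' = 3) ∨ (x = 3 ∧ x' = 0) := fun x x' => by
    rw [B4_V_iff, iA0, iA3, iA3, iA0]
  have vBB : ∀ x x', B4_V (kB x) (kB x') ↔ (x = 4 ∧ x' = -1) ∨ (x = -1 ∧ x' = 4) := fun x x' => by
    rw [B4_V_iff, iB0, iB3, iB3, iB0]
  have vAB : ∀ x y, B4_V (kA x) (kB y) ↔ (x = 0 ∧ y = -1) ∨ (x = 3 ∧ y = 4) := fun x y => by
    rw [B4_V_iff, iA0, iB3, iA3, iB0]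
  constructor
  · constructor
    · intro c v
      exact B4_D_symm n3 n5 c v _ rfl
    · intro c v hv
      rcases v with x | x
      · rw [B4_D_ll] at hv
        exact hv.2.1 rfl
      · rw [B4_D_rr] at hv
        exact hv.2.1 rfl
    · intro c c' v hv
      exact B4_D_dis n1 n3 n5 c c' v hv
    · rintro (x | x) (y | y) hv
      · exact B4_V_symm hv
      · exact hv
      · exact hv
      · exact B4_V_symm hv
    · rintro (x | x) hv
      · exact B4_V_irr _ hv
      · exact B4_V_irr _ hv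
    · rintro (x | x) (y | y) hv
      · exact B4_V_blk hv
      · exact B4_S_blk hv
      · exact (B4_S_blk hv).symm
      · exact B4_V_blk hv
    · rintro (x | x) (y | y) c hv hD
      · rw [B4_D_ll] at hD
        obtain ⟨h1, h2, h3⟩ := hD
        rcases (vAA x y).1 hv with ⟨rfl, rfl⟩ | ⟨rfl, rfl⟩
        · exact h3 ⟨by rw [← h1, zero_add], Or.inl rfl⟩
        · exact h3 ⟨by rw [← h1, add_zero], Or.inr rfl⟩
      · rw [B4_D_lr n3] at hD
        rcases hD with ⟨rfl, -⟩ | ⟨-, h1⟩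
        · exact (hE x).1 hv
        · exact B4_SV hv ((vAB x y).2 h1)
      · rw [B4_D_rl n5] at hD
        rcases hD with ⟨rfl, -⟩ | ⟨-, h1⟩
        · exact (hE x).1 hv
        · exact B4_SV hv ((vAB y x).2 (by tauto))
      · rw [B4_D_rr] at hD
        obtain ⟨h1, h2, h3⟩ := hD
        rcases (vBB x y).1 hv with ⟨rfl, rfl⟩ | ⟨rfl, rfl⟩
        · exact h3 ⟨by linear_combination -h1, Or.inr rfl⟩
        · exact h3 ⟨by linear_combination -h1, Or.inl rfl⟩
    · intro x x' hx
      by_cases hc : x + x' = 3 ∧ (x = 0 ∨ x = 3)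
      · left
        refine (vAA x x').2 ?_
        rcases hc with ⟨h1, h2 | h2⟩
        · exact Or.inl ⟨h2, by linear_combination h1 - h2⟩
        · exact Or.inr ⟨h2, by linear_combination h1 - h2⟩
      · right
        exact ⟨x + x', (B4_D_ll _ _ _).2 ⟨rfl, hx, hc⟩⟩
    · intro x x' hx
      by_cases hc : x + x' = 3 ∧ (x = -1 ∨ x = 4)
      · left
        refine (vBB x x').2 ?_
        rcases hc with ⟨h1, h2 | h2⟩
        · exact Or.inr ⟨h2, by linear_combination h1 - h2⟩
        · exact Or.inl ⟨h2, by linear_combination h1 - h2⟩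
      · right
        exact ⟨x + x', (B4_D_rr _ _ _).2 ⟨rfl, hx, hc⟩⟩
    · intro x y
      constructor
      · rintro (rfl | h1 | h1)
        · exact Or.inr ⟨x + x, (B4_D_lr n3 _ _ _).2 (Or.inl ⟨rfl, rfl⟩)⟩
        · exact Or.inl h1
        · exact Or.inr ⟨3, (B4_D_lr n3 _ _ _).2 (Or.inr ⟨rfl, (vAB x y).1 h1⟩)⟩
      · rintro (h1 | ⟨c, h1⟩)
        · exact Or.inr (Or.inl h1)
        · rw [B4_D_lr n3] at h1
          rcases h1 with ⟨h1, -⟩ | ⟨-, h1⟩
          · exact Or.inl h1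
          · exact Or.inr (Or.inr ((vAB x y).2 h1))
    · rintro (x | y)
      · obtain ⟨b, hb⟩ := B4_deg_r (kA x)
        refine ⟨.inr (kB.symm b), ?_⟩
        show B4_S (kA x) (kB (kB.symm b))
        rwa [Equiv.apply_symm_apply]
      · obtain ⟨a, ha⟩ := B4_deg_l (kB y)
        refine ⟨.inl (kA.symm a), ?_⟩
        show B4_S (kA (kA.symm a)) (kB y)
        rwa [Equiv.apply_symm_apply]
    · intro t R h1 h2
      rcases Fin.eq_zero_or_eq_succ t with rfl | ⟨t', rfl⟩
      · rw [if_pos rfl]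
        exact B4_loss0 kA kB R h1 h2
      · rw [if_neg (Fin.succ_ne_zero t')]
        exact B4_loss1 kA kB t' R h1 h2
  · constructor
    · intro x
      classical
      refine (B4_cardU _ (insert x ((univ.filter fun b => B4_S (kA x) b ∨ B4_V (kA x) b).map
        kB.symm.toEmbedding)) ?_).trans ?_
      swap
      · rw [card_insert_of_notMem, card_map, B4_card_r]
        intro h1
        obtain ⟨b, hb, hbx⟩ := mem_map.1 h1
        have h2 : b = kB x := by
          rw [← hbx]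
          exact (kB.apply_symm_apply b).symm
        rw [h2] at hb
        rcases (mem_filter.1 hb).2 with h3 | h3
        · exact (hE x).1 h3
        · exact (hE x).2 h3
      · intro y
        rw [mem_insert, mem_map]
        constructor
        · rintro (h1 | h1)
          · exact Or.inl h1.symm
          · exact Or.inr ⟨kB y, mem_filter.2 ⟨mem_univ _, h1⟩, kB.symm_apply_apply y⟩
        · rintro (h1 | ⟨b, hb, hby⟩)
          · exact Or.inl h1.symm
          · right
            have h2 : b = kB y := by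
              rw [← hby]
              exact (kB.apply_symm_apply b).symm
            rw [← h2]
            exact (mem_filter.1 hb).2
    · intro y
      classical
      refine (B4_cardU _ (insert y ((univ.filter fun a => B4_S a (kB y) ∨ B4_V a (kB y)).map
        kA.symm.toEmbedding)) ?_).trans ?_
      swap
      · rw [card_insert_of_notMem, card_map, B4_card_l]
        intro h1
        obtain ⟨b, hb, hbx⟩ := mem_map.1 h1
        have h2 : b = kA y := by
          rw [← hbx]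
          exact (kA.apply_symm_apply b).symm
        rw [h2] at hb
        rcases (mem_filter.1 hb).2 with h3 | h3
        · exact (hE y).1 h3
        · exact (hE y).2 h3
      · intro x
        rw [mem_insert, mem_map]
        constructor
        · rintro (h1 | h1)
          · exact Or.inl h1
          · exact Or.inr ⟨kA x, mem_filter.2 ⟨mem_univ _, h1⟩, kA.symm_apply_apply x⟩
        · rintro (h1 | ⟨b, hb, hby⟩)
          · exact Or.inl h1
          · right
            have h2 : b = kA x := by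
              rw [← hby]
              exact (kA.apply_symm_apply b).symm
            rw [← h2]
            exact (mem_filter.1 hb).2
    · intro t
      refine card_bijective (kA.trans kB.symm) (kA.trans kB.symm).bijective fun x => ?_
      rw [mem_filter, mem_filter]
      show _ ∧ B4_b (kA x) = t ↔ _ ∧ B4_b (kB (kB.symm (kA x))) = t
      rw [Equiv.apply_symm_apply]
      simp
    · intro t
      classical
      refine le_of_eq_of_le ?_ (B4_card_b t)
      refine card_bijective kA kA.bijective fun x => ?_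
      rw [mem_filter, mem_filter]
      simp

/-! ### the codes -/

def B4_g {s : ℕ} : B4_K s → ℕ
  | .inl i => i.val
  | .inr p => 4 + 3 * p.1.val + p.2.val

theorem B4_g_lt {s : ℕ} (k : B4_K s) : B4_g k < 3 * s + 4 := by
  rcases k with i | ⟨t, i⟩
  · show i.val < _
    omega
  · show 4 + 3 * t.val + i.val < _
    omega

theorem B4_g_inj {s : ℕ} (k k' : B4_K s) (hk : B4_g k = B4_g k') : k = k' := by
  rcases k with i | ⟨t, i⟩
  · rcases k' with j | ⟨t', j⟩
    · have h1 : i.val = j.val := hk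
      rw [Fin.ext h1]
    · have h1 : i.val = 4 + 3 * t'.val + j.val := hk
      omega
  · rcases k' with j | ⟨t', j⟩
    · have h1 : 4 + 3 * t.val + i.val = j.val := hk
      omega
    · have h1 : 4 + 3 * t.val + i.val = 4 + 3 * t'.val + j.val := hk
      have h2 : t.val = t'.val := by omega
      have h3 : i.val = j.val := by omega
      rw [Fin.ext h2, Fin.ext h3]

theorem B4_code {h s : ℕ} [NeZero h] (hs : h = 3 * s + 4) :
    ∃ k : ZMod h ≃ B4_K s, ∀ a, k ((B4_g a : ℕ) : ZMod h) = a := by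
  have hinj : Function.Injective (fun a : B4_K s => ((B4_g a : ℕ) : ZMod h)) := by
    intro a b hab
    have h1 : ((B4_g a : ℕ) : ZMod h) = ((B4_g b : ℕ) : ZMod h) := hab
    rw [ZMod.natCast_eq_natCast_iff'] at h1
    rw [Nat.mod_eq_of_lt (by rw [hs]; exact B4_g_lt a), Nat.mod_eq_of_lt (by rw [hs]; exact B4_g_lt b)] at h1
    exact B4_g_inj a b h1
  have hbij : Function.Bijective (fun a : B4_K s => ((B4_g a : ℕ) : ZMod h)) := by
    rw [Fintype.bijective_iff_injective_and_card]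
    refine ⟨hinj, ?_⟩
    rw [ZMod.card]
    simp [hs]
    ring
  refine ⟨(Equiv.ofBijective _ hbij).symm, fun a => ?_⟩
  exact (Equiv.ofBijective _ hbij).symm_apply_apply a

theorem B4_nat {h : ℕ} (hh : 16 ≤ h) (n : ℕ) (h1 : 0 < n) (h2 : n < 16) : ((n : ℕ) : ZMod h) ≠ 0 := by
  rw [Ne, ZMod.natCast_eq_zero_iff]
  intro h3
  have := Nat.le_of_dvd h1 h3
  omega

theorem stmt_B4 : Stmt_B4 := by
  intro h s _ hs hs4
  have hh : 16 ≤ h := by omega
  obtain ⟨k, hk⟩ := B4_code hs
  have nz := fun n h1 h2 => B4_nat hh n h1 h2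
  have n1 : (1 : ZMod h) ≠ 0 := by simpa using nz 1 (by norm_num) (by norm_num)
  have n2 : (2 : ZMod h) ≠ 0 := by simpa using nz 2 (by norm_num) (by norm_num)
  have n3 : (3 : ZMod h) ≠ 0 := by simpa using nz 3 (by norm_num) (by norm_num)
  have n4 : (4 : ZMod h) ≠ 0 := by simpa using nz 4 (by norm_num) (by norm_num)
  have n5 : (5 : ZMod h) ≠ 0 := by simpa using nz 5 (by norm_num) (by norm_num)
  have n6 : (6 : ZMod h) ≠ 0 := by simpa using nz 6 (by norm_num) (by norm_num)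
  have k0 : k 0 = .inl 0 := by simpa [B4_g] using hk (.inl 0)
  have k1 : k 1 = .inl 1 := by simpa [B4_g] using hk (.inl 1)
  have k2 : k 2 = .inl 2 := by simpa [B4_g] using hk (.inl 2)
  have k3 : k 3 = .inl 3 := by simpa [B4_g] using hk (.inl 3)
  have kinl : ∀ x i, k x = .inl i → x = 0 ∨ x = 1 ∨ x = 2 ∨ x = 3 := by
    intro x i hx
    have h1 : ∀ i : Fin 4, i = 0 ∨ i = 1 ∨ i = 2 ∨ i = 3 := by decide
    rcases h1 i with rfl | rfl | rfl | rfl
    · rw [← k0] at hx
      exact Or.inl (k.injective hx)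
    · rw [← k1] at hx
      exact Or.inr (Or.inl (k.injective hx))
    · rw [← k2] at hx
      exact Or.inr (Or.inr (Or.inl (k.injective hx)))
    · rw [← k3] at hx
      exact Or.inr (Or.inr (Or.inr (k.injective hx)))
  have kinr : ∀ x, x ≠ 0 → x ≠ 1 → x ≠ 2 → x ≠ 3 → ∃ p, k x = .inr p := by
    intro x h0 h1 h2 h3
    rcases hx : k x with i | p
    · rcases kinl x i hx with h | h | h | h
      · exact absurd h h0
      · exact absurd h h1
      · exact absurd h h2
      · exact absurd h h3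
    · exact ⟨p, rfl⟩
  have ne : ∀ a b c : ZMod h, c ≠ 0 → a - b = c → a ≠ b := by
    intro a b c hc h1 h2
    apply hc
    rw [← h1, h2, sub_self]
  have a01 := ne 1 0 1 n1 (by ring)
  have a42 := ne 4 2 2 n2 (by ring)
  have a43 := ne 4 3 1 n1 (by ring)
  have a54 := ne 5 4 1 n1 (by ring)
  have a4m := ne 4 (-1) 5 n5 (by ring)
  have a41 := ne 4 1 3 n3 (by ring)
  have a2m := ne 2 (-1) 3 n3 (by ring)
  have a5m := ne 5 (-1) 6 n6 (by ring)
  have a0m := ne 0 (-1) 1 n1 (by ring)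
  have a1m := ne 1 (-1) 2 n2 (by ring)
  have a3m := ne 3 (-1) 4 n4 (by ring)
  have a32 := ne 3 2 1 n1 (by ring)
  have a53 := ne 5 3 2 n2 (by ring)
  have a52 := ne 5 2 3 n3 (by ring)
  have a51 := ne 5 1 4 n4 (by ring)
  obtain ⟨p4, k4⟩ := kinr 4 n4 a41 a42 a43
  obtain ⟨p5, k5⟩ := kinr 5 n5 a51 a52 a53
  obtain ⟨pm, km⟩ := kinr (-1) a0m.symm a1m.symm a2m.symm a3m.symm
  obtain ⟨τ, hτ⟩ : ∃ τ : ZMod h ≃ ZMod h, ∀ x, τ x =
      Equiv.swap 0 4 (Equiv.swap 3 (-1) (Equiv.swap 2 5 x)) :=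
    ⟨(Equiv.swap 2 5).trans ((Equiv.swap 3 (-1)).trans (Equiv.swap 0 4)), fun x => rfl⟩
  have t4 : τ 4 = 0 := by
    rw [hτ, Equiv.swap_apply_of_ne_of_ne a42 a54.symm, Equiv.swap_apply_of_ne_of_ne a43 a4m,
      Equiv.swap_apply_right]
  have t0 : τ 0 = 4 := by
    rw [hτ, Equiv.swap_apply_of_ne_of_ne n2.symm n5.symm, Equiv.swap_apply_of_ne_of_ne n3.symm a0m,
      Equiv.swap_apply_left]
  have tm : τ (-1) = 3 := by
    rw [hτ, Equiv.swap_apply_of_ne_of_ne a2m.symm a5m.symm, Equiv.swap_apply_right,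
      Equiv.swap_apply_of_ne_of_ne n3 a43.symm]
  have t3 : τ 3 = -1 := by
    rw [hτ, Equiv.swap_apply_of_ne_of_ne a32 a53.symm, Equiv.swap_apply_left,
      Equiv.swap_apply_of_ne_of_ne a0m.symm a4m.symm]
  have t2 : τ 2 = 5 := by
    rw [hτ, Equiv.swap_apply_left, Equiv.swap_apply_of_ne_of_ne a53 a5m,
      Equiv.swap_apply_of_ne_of_ne n5 a54]
  have t5 : τ 5 = 2 := by
    rw [hτ, Equiv.swap_apply_right, Equiv.swap_apply_of_ne_of_ne a32.symm a2m,
      Equiv.swap_apply_of_ne_of_ne n2 a42.symm]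
  have tx : ∀ x, x ≠ 0 → x ≠ 4 → x ≠ 3 → x ≠ -1 → x ≠ 2 → x ≠ 5 → τ x = x := by
    intro x h0 h4 h3 hm h2 h5
    rw [hτ, Equiv.swap_apply_of_ne_of_ne h2 h5, Equiv.swap_apply_of_ne_of_ne h3 hm,
      Equiv.swap_apply_of_ne_of_ne h0 h4]
  have hlr : ∀ (i : Fin 4) (p : Fin s × Fin 3),
      (¬ B4_S (.inl i : B4_K s) (.inr p) ∧ ¬ B4_V (.inl i : B4_K s) (.inr p)) ∧
      (¬ B4_S (.inr p : B4_K s) (.inl i) ∧ ¬ B4_V (.inr p : B4_K s) (.inl i)) :=
    fun i p => ⟨⟨fun hh => hh, fun hh => hh⟩, ⟨fun hh => hh, fun hh => hh⟩⟩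
  have hE : ∀ x, ¬ B4_S (k x) ((τ.trans k) x) ∧ ¬ B4_V (k x) ((τ.trans k) x) := by
    intro x
    rw [Equiv.trans_apply]
    by_cases h0 : x = 0
    · rw [h0, t0, k0, k4]
      exact (hlr _ _).1
    by_cases h4 : x = 4
    · rw [h4, t4, k0, k4]
      exact (hlr _ _).2
    by_cases h3 : x = 3
    · rw [h3, t3, k3, km]
      exact (hlr _ _).1
    by_cases hm : x = -1
    · rw [hm, tm, k3, km]
      exact (hlr _ _).2
    by_cases h2 : x = 2
    · rw [h2, t2, k2, k5]
      exact (hlr _ _).1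
    by_cases h5 : x = 5
    · rw [h5, t5, k2, k5]
      exact (hlr _ _).2
    rw [tx x h0 h4 h3 hm h2 h5]
    refine ⟨?_, B4_V_irr _⟩
    by_cases h1 : x = 1
    · rw [h1, k1]
      show ¬ B4_L 1 1 = true
      decide
    · obtain ⟨p, hp⟩ := kinr x h0 h1 h2 h3
      rw [hp]
      rintro ⟨-, h6⟩
      exact h6 rfl
  obtain ⟨hb, hc⟩ := B4_abs n1 n3 n5 k (τ.trans k) k0 k3 (by rw [Equiv.trans_apply, t4, k0])
    (by rw [Equiv.trans_apply, tm, k3]) hE
  exact ⟨_, _, _, _, _, hb, hc⟩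

end Pool.Agent.Work.MP_1ce445_ex
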