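import Pool.Agent.Work.MP_1ce445_ex.Interface

set_option autoImplicit false

namespace Pool.Agent.Work.MP_1ce445_ex

open Finset Pool.Agent.Work.MP_1ce445_co_56 Pool.Agent.Work.MP_1ce445_lin

/-- the matchings of index type `α ⊕ Fin r` -/
def CON_mu {α : Type} {r : ℕ} (D : α → α ⊕ α → α ⊕ α) (M : Fin r → (α ≃ α)) :
    α ⊕ Fin r → α ⊕ α → α ⊕ α
  | .inl c, v => D c v
  | .inr i, .inl x => .inr (M i x)
  | .inr i, .inr y => .inl ((M i).symm y)

open Classical in
/-- the matchings of the complements of the blocks -/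
noncomputable def CON_nu {α : Type} {s : ℕ} (β β' : α → Fin s)
    (N : ∀ t : Fin s, {x // β x ≠ t} ≃ {y // β' y ≠ t}) (t : Fin s) : α ⊕ α → α ⊕ α
  | .inl x => if h : β x ≠ t then .inr (N t ⟨x, h⟩ : α) else .inl x
  | .inr y => if h : β' y ≠ t then .inl ((N t).symm ⟨y, h⟩ : α) else .inr y

lemma CON_nul {α : Type} {s : ℕ} (β β' : α → Fin s)
    (N : ∀ t : Fin s, {x // β x ≠ t} ≃ {y // β' y ≠ t}) (t : Fin s) (x : α) (h : β x ≠ t) :
    CON_nu β β' N t (.inl x) = .inr (N t ⟨x, h⟩ : α) := by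
  simp only [CON_nu]
  rw [dif_pos h]

lemma CON_nur {α : Type} {s : ℕ} (β β' : α → Fin s)
    (N : ∀ t : Fin s, {x // β x ≠ t} ≃ {y // β' y ≠ t}) (t : Fin s) (y : α) (h : β' y ≠ t) :
    CON_nu β β' N t (.inr y) = .inl ((N t).symm ⟨y, h⟩ : α) := by
  simp only [CON_nu]
  rw [dif_pos h]

theorem stmt_CON : Stmt_CON := by
  classical
  intro α _ s r U β β' Sp D l N M hB hE
  have hUd : ∀ c x y, D c (.inl x) = .inr y → U x y := fun c x y h =>
    (hB.cross x y).2 (Or.inr ⟨c, h⟩)
  have hUs : ∀ x y, Sp (.inl x) (.inr y) → U x y := fun x y h =>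
    (hB.cross x y).2 (Or.inl h)
  have hDr : ∀ c x y, D c (.inr y) = .inl x → D c (.inl x) = .inr y := fun c x y h => by
    rw [← h]
    exact hB.d_inv c _
  have hDl : ∀ c x y, D c (.inl x) = .inr y → D c (.inr y) = .inl x := fun c x y h => by
    rw [← h]
    exact hB.d_inv c _
  -- the inverse of `N t`
  have hN : ∀ t y (hy : β' y ≠ t), ∃ (x : α) (hx : β x ≠ t),
      ((N t).symm ⟨y, hy⟩ : α) = x ∧ (N t ⟨x, hx⟩ : α) = y := by
    intro t y hy
    refine ⟨((N t).symm ⟨y, hy⟩ : α), ((N t).symm ⟨y, hy⟩).2, rfl, ?_⟩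
    have e : N t ⟨((N t).symm ⟨y, hy⟩ : α), ((N t).symm ⟨y, hy⟩).2⟩ = ⟨y, hy⟩ := by
      rw [Subtype.coe_eta, Equiv.apply_symm_apply]
    rw [e]
  refine ⟨CON_mu D M, CON_nu β β' N, ?_⟩
  constructor
  · -- mu_inv
    rintro (c | i) (x | y)
    · exact hB.d_inv c _
    · exact hB.d_inv c _
    · simp [CON_mu]
    · simp [CON_mu]
  · -- mu_ne
    rintro (c | i) (x | y)
    · exact hB.d_ne c _
    · exact hB.d_ne c _
    · simp [CON_mu]
    · simp [CON_mu]
  · -- nu_blk
    rintro t (x | y) h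
    · have h' : β x ≠ t := h
      rw [CON_nul β β' N t x h']
      exact (N t ⟨x, h'⟩).2
    · have h' : β' y ≠ t := h
      rw [CON_nur β β' N t y h']
      exact ((N t).symm ⟨y, h'⟩).2
  · -- nu_inv
    rintro t (x | y) h
    · have h' : β x ≠ t := h
      rw [CON_nul β β' N t x h', CON_nur β β' N t _ (N t ⟨x, h'⟩).2, Subtype.coe_eta,
        Equiv.symm_apply_apply]
    · have h' : β' y ≠ t := h
      rw [CON_nur β β' N t y h', CON_nul β β' N t _ ((N t).symm ⟨y, h'⟩).2, Subtype.coe_eta,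
        Equiv.apply_symm_apply]
  · -- nu_ne
    rintro t (x | y) h
    · have h' : β x ≠ t := h
      rw [CON_nul β β' N t x h']
      exact Sum.inr_ne_inl
    · have h' : β' y ≠ t := h
      rw [CON_nur β β' N t y h']
      exact Sum.inl_ne_inr
  · exact hB.sp_symm
  · exact hB.sp_irr
  · exact hB.sp_blk
  · -- cov
    rintro (x | y) (x' | y') hne
    · rcases hB.inA x x' (fun h => hne (by rw [h])) with h | ⟨c, h⟩
      · exact Or.inl h
      · exact Or.inr (Or.inl ⟨.inl c, h⟩)
    · rcases hE.cov x y' with h | ⟨t, hx, h⟩ | ⟨i, h⟩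
      · rcases (hB.cross x y').1 h with h | ⟨c, h⟩
        · exact Or.inl h
        · exact Or.inr (Or.inl ⟨.inl c, h⟩)
      · refine Or.inr (Or.inr ⟨t, hx, ?_⟩)
        rw [CON_nul β β' N t x hx, h]
      · refine Or.inr (Or.inl ⟨.inr i, ?_⟩)
        show Sum.inr (M i x) = _
        rw [h]
    · rcases hE.cov x' y with h | ⟨t, hx, h⟩ | ⟨i, h⟩
      · rcases (hB.cross x' y).1 h with h | ⟨c, h⟩
        · exact Or.inl (hB.sp_symm _ _ h)
        · exact Or.inr (Or.inl ⟨.inl c, hDl c x' y h⟩)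
      · have hy : β' y ≠ t := by
          rw [← h]
          exact (N t ⟨x', hx⟩).2
        refine Or.inr (Or.inr ⟨t, hy, ?_⟩)
        rw [CON_nur β β' N t y hy]
        have e : (⟨y, hy⟩ : {y // β' y ≠ t}) = N t ⟨x', hx⟩ := Subtype.ext h.symm
        rw [e, Equiv.symm_apply_apply]
      · refine Or.inr (Or.inl ⟨.inr i, ?_⟩)
        show Sum.inl ((M i).symm y) = _
        rw [← h, Equiv.symm_apply_apply]
    · rcases hB.inB y y' (fun h => hne (by rw [h])) with h | ⟨c, h⟩
      · exact Or.inl h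
      · exact Or.inr (Or.inl ⟨.inl c, h⟩)
  · -- d1
    have key : ∀ c i v, D c v ≠ CON_mu D M (.inr i) v := by
      rintro c i (x | y) h
      · exact hE.mu i x (hUd c x _ h)
      · have h2 := hUd c _ _ (hDr c _ _ h)
        apply hE.mu i ((M i).symm y)
        rw [Equiv.apply_symm_apply]
        exact h2
    rintro (c | i) (c' | j) v h
    · exact congrArg _ (hB.d_dis c c' v h)
    · exact absurd h (key c j v)
    · exact absurd h.symm (key c' i v)
    · rcases v with x | y
      · have h' : M i x = M j x := Sum.inr_injective h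
        exact congrArg _ (hE.mm i j x h')
      · have h' : (M i).symm y = (M j).symm y := Sum.inl_injective h
        refine congrArg _ (hE.mm i j ((M i).symm y) ?_)
        rw [Equiv.apply_symm_apply, h', Equiv.apply_symm_apply]
  · -- d2
    rintro t t' (x | y) h1 h2 h
    · have h1' : β x ≠ t := h1
      have h2' : β x ≠ t' := h2
      rw [CON_nul β β' N t x h1', CON_nul β β' N t' x h2'] at h
      exact hE.nn t t' x h1' h2' (Sum.inr_injective h)
    · have h1' : β' y ≠ t := h1
      have h2' : β' y ≠ t' := h2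
      rw [CON_nur β β' N t y h1', CON_nur β β' N t' y h2'] at h
      obtain ⟨x, hx, e1, e2⟩ := hN t y h1'
      obtain ⟨x', hx', e1', e2'⟩ := hN t' y h2'
      rw [e1, e1'] at h
      have e : x = x' := Sum.inl_injective h
      subst e
      exact hE.nn t t' x hx hx' (e2.trans e2'.symm)
  · -- d3
    rintro t (c | i) (x | y) h1 h
    · have h1' : β x ≠ t := h1
      rw [CON_nul β β' N t x h1'] at h
      exact hE.nu t ⟨x, h1'⟩ (hUd c x _ h.symm)
    · have h1' : β' y ≠ t := h1
      rw [CON_nur β β' N t y h1'] at h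
      obtain ⟨x, hx, e1, e2⟩ := hN t y h1'
      rw [e1] at h
      have h2 := hUd c _ _ (hDr c _ _ h.symm)
      exact hE.nu t ⟨x, hx⟩ (by rw [e2]; exact h2)
    · have h1' : β x ≠ t := h1
      rw [CON_nul β β' N t x h1'] at h
      exact hE.nm t i ⟨x, h1'⟩ (Sum.inr_injective h)
    · have h1' : β' y ≠ t := h1
      rw [CON_nur β β' N t y h1'] at h
      obtain ⟨x, hx, e1, e2⟩ := hN t y h1'
      rw [e1] at h
      have h2 : x = (M i).symm y := Sum.inl_injective h
      apply hE.nm t i ⟨x, hx⟩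
      rw [e2]
      show y = M i x
      rw [h2, Equiv.apply_symm_apply]
  · -- d4
    rintro v w (c | i) hs h
    · exact hB.sp_d v w c hs h
    · rcases v with x | y
      · have h' : Sum.inr (M i x) = w := h
        rw [← h'] at hs
        exact hE.mu i x (hUs _ _ hs)
      · have h' : Sum.inl ((M i).symm y) = w := h
        rw [← h'] at hs
        apply hE.mu i ((M i).symm y)
        rw [Equiv.apply_symm_apply]
        exact hUs _ _ (hB.sp_symm _ _ hs)
  · -- d5
    rintro (x | y) w t hs h1 h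
    · have h1' : β x ≠ t := h1
      rw [CON_nul β β' N t x h1'] at h
      rw [← h] at hs
      exact hE.nu t ⟨x, h1'⟩ (hUs _ _ hs)
    · have h1' : β' y ≠ t := h1
      rw [CON_nur β β' N t y h1'] at h
      obtain ⟨x, hx, e1, e2⟩ := hN t y h1'
      rw [e1] at h
      rw [← h] at hs
      exact hE.nu t ⟨x, hx⟩ (by rw [e2]; exact hUs _ _ (hB.sp_symm _ _ hs))
  · exact hB.deg
  · exact hB.loss

end Pool.Agent.Work.MP_1ce445_ex
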