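import Pool.Agent.Work.MP_1ce445_ex.Interface

set_option autoImplicit false

namespace Pool.Agent.Work.MP_1ce445_ex

open Finset Pool.Agent.Work.MP_1ce445_co_56 Pool.Agent.Work.MP_1ce445_lin

open Classical in
lemma GRE_half {γ : Type} [Fintype γ] (R : γ → Prop) (b : ℕ)
    (hb : (univ.filter (fun y => ¬ R y)).card ≤ b) (hm : 2 * b ≤ Fintype.card γ) :
    Fintype.card γ ≤ 2 * (univ.filter (fun y => R y)).card := by
  have h := Finset.card_filter_add_card_filter_not (s := (univ : Finset γ)) (fun y => R y)
  rw [Finset.card_univ] at h
  omega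

open Classical in
lemma GRE_sub {α : Type} (p : α → Prop) [Fintype {y // p y}] (bad : Finset α) (R : {y // p y} → Prop)
    (h : ∀ y, ¬ R y → (y : α) ∈ bad) : (univ.filter (fun y => ¬ R y)).card ≤ bad.card :=
  Finset.card_le_card_of_injOn (fun y => (y : α))
    (fun y hy => h y (Finset.mem_filter.1 hy).2) (fun _ _ _ _ e => Subtype.ext e)

open Classical in
lemma GRE_bad {α : Type} (V : Finset α) (s j : ℕ) (hj : j < s) (g : Fin s → α) (hV : V.card = 3) :
    (V ∪ (univ.filter (fun t : Fin s => t.val < j)).image g).card ≤ s + 2 := by
  have h1 := Finset.card_union_le V ((univ.filter (fun t : Fin s => t.val < j)).image g)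
  have h2 : ((univ.filter (fun t : Fin s => t.val < j)).image g).card ≤ (univ.filter (fun t : Fin s => t.val < j)).card :=
    Finset.card_image_le
  have h3 : (univ.filter (fun t : Fin s => t.val < j)).card ≤ (Finset.range j).card :=
    Finset.card_le_card_of_injOn (fun t => t.val)
      (fun t ht => by simpa using (Finset.mem_filter.1 ht).2) (fun _ _ _ _ e => Fin.ext e)
  rw [Finset.card_range] at h3
  omega

open Classical in
lemma GRE_card {α : Type} [Fintype α] {s : ℕ} (β : α → Fin s) (t : Fin s) :
    Fintype.card {x // β x ≠ t} + (univ.filter (fun x => β x = t)).card = Fintype.card α := by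
  have h := Finset.card_filter_add_card_filter_not (s := (univ : Finset α)) (fun x => β x = t)
  rw [Finset.card_univ] at h
  have h2 : Fintype.card {x // β x ≠ t} = (univ.filter (fun x => ¬ β x = t)).card := Fintype.card_subtype _
  rw [h2]
  omega

theorem stmt_GRE (h1 : Stmt_PM) : Stmt_GRE := by
  classical
  intro α _ s U β β' hC hs
  have hca : ∀ t, Fintype.card {x // β x ≠ t} + (univ.filter (fun x => β x = t)).card = Fintype.card α :=
    fun t => by convert GRE_card β t
  have hcb : ∀ t, Fintype.card {y // β' y ≠ t} + (univ.filter (fun y => β' y = t)).card = Fintype.card α :=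
    fun t => by convert GRE_card β' t
  have hsiz : ∀ t, (univ.filter (fun x => β x = t)).card = (univ.filter (fun y => β' y = t)).card :=
    fun t => by convert hC.siz t
  have hsiz4 : ∀ t, (univ.filter (fun x => β x = t)).card ≤ 4 := fun t => by convert hC.siz4 t
  have hcard : ∀ t, Fintype.card {x // β x ≠ t} = Fintype.card {y // β' y ≠ t} := by
    intro t
    have a1 := hca t
    have a2 := hcb t
    have a3 := hsiz t
    omega
  have hbig : ∀ t, 2 * (s + 2) ≤ Fintype.card {x // β x ≠ t} := by
    intro t
    have a1 := hca t
    have a2 := hsiz4 t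
    omega
  have hbig' : ∀ t, 2 * (s + 2) ≤ Fintype.card {y // β' y ≠ t} := fun t => by
    rw [← hcard t]
    exact hbig t
  have key : ∀ j ≤ s, ∃ N : ∀ t : Fin s, {x // β x ≠ t} ≃ {y // β' y ≠ t},
      (∀ t : Fin s, t.val < j → ∀ x : {x // β x ≠ t}, ¬ U x (N t x)) ∧
      ∀ t t' : Fin s, t.val < j → t'.val < j → ∀ x (hx : β x ≠ t) (hx' : β x ≠ t'),
        (N t ⟨x, hx⟩ : α) = N t' ⟨x, hx'⟩ → t = t' := by
    intro j
    induction j with
    | zero =>
      intro _
      exact ⟨fun t => Fintype.equivOfCardEq (hcard t), fun t ht => absurd ht (Nat.not_lt_zero _),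
        fun t t' ht => absurd ht (Nat.not_lt_zero _)⟩
    | succ j ih =>
      intro hj
      obtain ⟨N, hN1, hN2⟩ := ih (by omega)
      have hjs : j < s := hj
      obtain ⟨t0, ht0⟩ : ∃ t0 : Fin s, t0.val = j := ⟨⟨j, hjs⟩, rfl⟩
      obtain ⟨f, hf⟩ := h1 {x // β x ≠ t0} {y // β' y ≠ t0}
        (fun x y => ¬ U x y ∧ ∀ t' : Fin s, t'.val < j → ∀ hx : β x ≠ t', (N t' ⟨x, hx⟩ : α) ≠ y)
        (hcard t0)
        (by
          intro x
          have hb := GRE_sub (fun y => β' y ≠ t0)
            ((univ.filter (fun y => U (x : α) y)) ∪ (univ.filter (fun t : Fin s => t.val < j)).image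
              (fun t => if hx : β x ≠ t then (N t ⟨x, hx⟩ : α) else x))
            (fun y => ¬ U x y ∧ ∀ t' : Fin s, t'.val < j → ∀ hx : β x ≠ t', (N t' ⟨x, hx⟩ : α) ≠ y)
            (by
              intro y hy
              rw [Finset.mem_union]
              by_cases hU : U x y
              · left
                exact Finset.mem_filter.2 ⟨Finset.mem_univ _, hU⟩
              · right
                have hy' : ¬ ∀ t' : Fin s, t'.val < j → ∀ hx : β x ≠ t', (N t' ⟨x, hx⟩ : α) ≠ y :=
                  fun h => hy ⟨hU, h⟩
                push Not at hy'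
                obtain ⟨t', ht', hx, he⟩ := hy'
                refine Finset.mem_image.2 ⟨t', Finset.mem_filter.2 ⟨Finset.mem_univ _, ht'⟩, ?_⟩
                rw [dif_pos hx]
                exact he)
          have hb2 := GRE_bad (univ.filter (fun y => U (x : α) y)) s j hjs
            (fun t => if hx : β x ≠ t then (N t ⟨x, hx⟩ : α) else x) (by convert hC.reg1 (x : α))
          have hh := GRE_half _ (s + 2) (hb.trans hb2) (hbig' t0)
          convert hh)
        (by
          intro y
          have hb := GRE_sub (fun x => β x ≠ t0)
            ((univ.filter (fun x => U x (y : α))) ∪ (univ.filter (fun t : Fin s => t.val < j)).image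
              (fun t => if hy : β' y ≠ t then ((N t).symm ⟨y, hy⟩ : α) else y))
            (fun x => ¬ U x y ∧ ∀ t' : Fin s, t'.val < j → ∀ hx : β x ≠ t', (N t' ⟨x, hx⟩ : α) ≠ y)
            (by
              intro x hx0
              rw [Finset.mem_union]
              by_cases hU : U x y
              · left
                exact Finset.mem_filter.2 ⟨Finset.mem_univ _, hU⟩
              · right
                have hy' : ¬ ∀ t' : Fin s, t'.val < j → ∀ hx : β x ≠ t', (N t' ⟨x, hx⟩ : α) ≠ y :=
                  fun h => hx0 ⟨hU, h⟩
                push Not at hy'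
                obtain ⟨t', ht', hx, he⟩ := hy'
                refine Finset.mem_image.2 ⟨t', Finset.mem_filter.2 ⟨Finset.mem_univ _, ht'⟩, ?_⟩
                have hyt : β' y ≠ t' := by
                  rw [← he]
                  exact (N t' ⟨x, hx⟩).2
                rw [dif_pos hyt]
                have e1 : (⟨(y : α), hyt⟩ : {y // β' y ≠ t'}) = N t' ⟨x, hx⟩ := Subtype.ext he.symm
                rw [e1, Equiv.symm_apply_apply])
          have hb2 := GRE_bad (univ.filter (fun x => U x (y : α))) s j hjs
            (fun t => if hy : β' y ≠ t then ((N t).symm ⟨y, hy⟩ : α) else y) (by convert hC.reg2 (y : α))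
          have hh := GRE_half _ (s + 2) (hb.trans hb2) (hbig t0)
          convert hh)
      refine ⟨Function.update N t0 f, ?_, ?_⟩
      · intro t ht x
        by_cases htt : t = t0
        · subst htt
          rw [Function.update_self]
          exact (hf x).1
        · rw [Function.update_of_ne htt]
          have h3 : t.val ≠ t0.val := fun e => htt (Fin.ext e)
          exact hN1 t (by omega) x
      · intro t t' ht ht' x hx hx' he
        by_cases htt : t = t0
        · by_cases htt' : t' = t0
          · rw [htt, htt']
          · exfalso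
            subst htt
            rw [Function.update_self, Function.update_of_ne htt'] at he
            have h3 : t'.val ≠ t.val := fun e => htt' (Fin.ext e)
            exact (hf ⟨x, hx⟩).2 t' (by omega) hx' he.symm
        · by_cases htt' : t' = t0
          · exfalso
            subst htt'
            rw [Function.update_self, Function.update_of_ne htt] at he
            have h3 : t.val ≠ t'.val := fun e => htt (Fin.ext e)
            exact (hf ⟨x, hx'⟩).2 t (by omega) hx he
          · rw [Function.update_of_ne htt, Function.update_of_ne htt'] at he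
            have h3 : t.val ≠ t0.val := fun e => htt (Fin.ext e)
            have h4 : t'.val ≠ t0.val := fun e => htt' (Fin.ext e)
            exact hN2 t t' (by omega) (by omega) x hx hx' he
  obtain ⟨N, hN1, hN2⟩ := key s le_rfl
  exact ⟨N, fun t x => hN1 t t.2 x, fun t t' x hx hx' he => hN2 t t' t.2 t'.2 x hx hx' he⟩

end Pool.Agent.Work.MP_1ce445_ex
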