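import Pool.Agent.Work.MP_1ce445_ex.Interface

/-!
# Block LOE of theorem EX: the lower bound
-/

namespace Pool.Agent.Work.MP_1ce445_ex

open Finset Pool.Agent.Work.MP_1ce445_co_56 Pool.Agent.Work.MP_1ce445_lin

theorem LOE_core (hASM : Stmt_ASM) (hCON : Stmt_CON) (hGRE : Stmt_GRE) (hREM : Stmt_REM)
    {h s : ℕ} [NeZero h] {U : ZMod h → ZMod h → Prop} {β β' : ZMod h → Fin s}
    {Sp : ZMod h ⊕ ZMod h → ZMod h ⊕ ZMod h → Prop} {D : ZMod h → ZMod h ⊕ ZMod h → ZMod h ⊕ ZMod h}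
    {l : Fin s → ℕ} (hB : Bas (ZMod h) s U β β' Sp D l) (hC : Cnt (ZMod h) s U β β')
    (hs : 2 * s + 8 ≤ h) :
    (2 * h) ^ (2 * h - 2 - s) * ∏ t, (2 * h - l t) ≤ P (2 * h) (2 * h - 2) := by
  have hcard : Fintype.card (ZMod h) = h := ZMod.card h
  obtain ⟨N, hN1, hN2⟩ := hGRE (ZMod h) s U β β' hC (by rw [hcard]; exact hs)
  obtain ⟨M, hM⟩ := hREM (ZMod h) s (h - 2 - s) U β β' hC (by rw [hcard]; omega) N hN1 hN2
  obtain ⟨μ, ν, hD⟩ := hCON U β β' Sp D l N M hB hM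
  have key := hASM (Sum.elim β β') Sp μ ν l hD
  have c1 : Fintype.card (ZMod h ⊕ ZMod h) = 2 * h := by
    rw [Fintype.card_sum, hcard]; ring
  have c2 : Fintype.card (ZMod h ⊕ Fin (h - 2 - s)) = 2 * h - 2 - s := by
    rw [Fintype.card_sum, hcard, Fintype.card_fin]; omega
  rw [c1, c2] at key
  have c3 : 2 * h - 2 - s + s = 2 * h - 2 := by omega
  rwa [c3] at key

theorem stmt_LOE (hASM : Stmt_ASM) (hCON : Stmt_CON) (hGRE : Stmt_GRE) (hREM : Stmt_REM)
    (hB0 : Stmt_B0) (hB2 : Stmt_B2) (hB4 : Stmt_B4) : Stmt_LOE := by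
  intro n hn h48
  obtain ⟨h, hh⟩ := hn
  have hn2 : n = 2 * h := by omega
  subst hn2
  have h24 : 24 ≤ h := by omega
  haveI : NeZero h := ⟨by omega⟩
  have hmod : h % 3 = 0 ∨ h % 3 = 2 ∨ h % 3 = 1 := by omega
  rcases hmod with h0 | h2 | h1
  · obtain ⟨U, β, β', Sp, D, hB, hC⟩ := hB0 h (h / 3) (by omega) (by omega)
    have key := LOE_core hASM hCON hGRE hREM hB hC (by omega)
    rw [Finset.prod_const, Finset.card_univ, Fintype.card_fin] at key
    have e1 : (2 * h) % 6 ≠ 2 := by omega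
    have e2 : (2 * h + 2) / 6 = h / 3 := by omega
    unfold val
    rw [if_neg e1, e2]
    exact key
  · obtain ⟨U, β, β', Sp, D, hB, hC⟩ := hB2 h (h / 3) (by omega) (by omega)
    have key := LOE_core hASM hCON hGRE hREM hB hC (by omega)
    rw [Finset.prod_const, Finset.card_univ, Fintype.card_fin] at key
    have e1 : (2 * h) % 6 ≠ 2 := by omega
    have e2 : (2 * h + 2) / 6 = h / 3 + 1 := by omega
    unfold val
    rw [if_neg e1, e2]
    exact key
  · obtain ⟨U, β, β', Sp, D, hB, hC⟩ := hB4 h (h / 3 - 1) (by omega) (by omega)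
    have key := LOE_core hASM hCON hGRE hREM hB hC (by omega)
    rw [Fin.prod_univ_succ] at key
    simp only [if_true, Fin.succ_ne_zero, if_false, Finset.prod_const, Finset.card_univ,
      Fintype.card_fin] at key
    have e1 : (2 * h) % 6 = 2 := by omega
    have e2 : (2 * h + 2) / 6 = h / 3 - 1 + 1 := by omega
    unfold val
    rw [if_pos e1, e2, Nat.add_sub_cancel, mul_assoc, mul_comm ((2 * h - 2) ^ (h / 3 - 1))]
    exact key

end Pool.Agent.Work.MP_1ce445_ex
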