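import Pool.Agent.Work.MP_1ce445_ex.Interface

/-!
Block OPT: the optimization (typed by helper84).
-/

namespace Pool.Agent.Work.MP_1ce445_ex

open Finset Pool.Agent.Work.MP_1ce445_co_56 Pool.Agent.Work.MP_1ce445_lin

/-- the function `ψ` -/
noncomputable def OPT_psi (x y : ℝ) : ℕ → ℝ
  | 0 => 1
  | 1 => x
  | 2 => x
  | 3 => x
  | 4 => y
  | (b + 5) => x * OPT_psi x y (b + 2)

lemma OPT_five (x y : ℝ) (b : ℕ) : OPT_psi x y (b + 5) = x * OPT_psi x y (b + 2) := by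
  rw [OPT_psi]

lemma OPT_add (x y : ℝ) (b : ℕ) (hb : 2 ≤ b) : OPT_psi x y (b + 3) = x * OPT_psi x y b := by
  obtain ⟨c, rfl⟩ : ∃ c, b = c + 2 := ⟨b - 2, by omega⟩
  exact OPT_five x y c

lemma OPT_nonneg (x y : ℝ) (hx : 0 ≤ x) (hy : 0 ≤ y) : ∀ b, 0 ≤ OPT_psi x y b
  | 0 => by rw [OPT_psi]; norm_num
  | 1 => by rw [OPT_psi]; exact hx
  | 2 => by rw [OPT_psi]; exact hx
  | 3 => by rw [OPT_psi]; exact hx
  | 4 => by rw [OPT_psi]; exact hy
  | (b + 5) => by
    rw [OPT_five]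
    exact mul_nonneg hx (OPT_nonneg x y hx hy (b + 2))

lemma OPT_mul (x y : ℝ) (hx0 : 0 ≤ x) (hx1 : x ≤ 1) (hy0 : 0 ≤ y) (hyx : y ≤ x)
    (h1 : x ^ 2 ≤ y) (h2 : y ^ 2 ≤ x ^ 3) (m : ℕ) :
    ∀ b c, b + c = m → OPT_psi x y b * OPT_psi x y c ≤ OPT_psi x y (b + c) := by
  induction m using Nat.strong_induction_on with
  | _ m ih =>
  intro b c hbc
  by_cases hb : 5 ≤ b
  · obtain ⟨b', rfl⟩ : ∃ b', b = b' + 5 := ⟨b - 5, by omega⟩
    have e1 : b' + 5 + c = (b' + 2 + c) + 3 := by ring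
    have e2 := OPT_add x y (b' + 2 + c) (by omega)
    rw [e1, e2, OPT_five, mul_assoc]
    exact mul_le_mul_of_nonneg_left (ih (b' + 2 + c) (by omega) (b' + 2) c rfl) hx0
  by_cases hc : 5 ≤ c
  · obtain ⟨c', rfl⟩ : ∃ c', c = c' + 5 := ⟨c - 5, by omega⟩
    have e1 : b + (c' + 5) = (b + (c' + 2)) + 3 := by ring
    have e2 := OPT_add x y (b + (c' + 2)) (by omega)
    rw [e1, e2, OPT_five, mul_left_comm]
    exact mul_le_mul_of_nonneg_left (ih (b + (c' + 2)) (by omega) b (c' + 2) rfl) hx0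
  have v0 : OPT_psi x y 0 = 1 := by rw [OPT_psi]
  have v1 : OPT_psi x y 1 = x := by rw [OPT_psi]
  have v2 : OPT_psi x y 2 = x := by rw [OPT_psi]
  have v3 : OPT_psi x y 3 = x := by rw [OPT_psi]
  have v4 : OPT_psi x y 4 = y := by rw [OPT_psi]
  have v5 : OPT_psi x y 5 = x * x := by rw [OPT_add x y 2 le_rfl, v2]
  have v6 : OPT_psi x y 6 = x * x := by rw [OPT_add x y 3 (by norm_num), v3]
  have v7 : OPT_psi x y 7 = x * y := by rw [OPT_add x y 4 (by norm_num), v4]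
  have v8 : OPT_psi x y 8 = x * (x * x) := by rw [OPT_add x y 5 (by norm_num), v5]
  have w1 : x * x ≤ y := by nlinarith
  have w2 : y * y ≤ x * (x * x) := by nlinarith
  have w3 : x * x ≤ x := by nlinarith
  have w4 : x * y ≤ x * x := mul_le_mul_of_nonneg_left hyx hx0
  have w5 : y * x ≤ x * x := mul_le_mul_of_nonneg_right hyx hx0
  have w6 : y * x = x * y := mul_comm y x
  have hb' : b ≤ 4 := by omega
  have hc' : c ≤ 4 := by omega
  interval_cases b <;> interval_cases c <;>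
    simp only [Nat.reduceAdd, v0, v1, v2, v3, v4, v5, v6, v7, v8, one_mul, mul_one, le_refl] <;>
    first
      | exact w1
      | exact w2
      | exact w3
      | exact w4
      | exact w5
      | exact w6.le

lemma OPT_prod (x y : ℝ) (hx0 : 0 ≤ x) (hx1 : x ≤ 1) (hy0 : 0 ≤ y) (hyx : y ≤ x)
    (h1 : x ^ 2 ≤ y) (h2 : y ^ 2 ≤ x ^ 3) {ι : Type} (s : Finset ι) (b : ι → ℕ) :
    ∏ j ∈ s, OPT_psi x y (b j) ≤ OPT_psi x y (∑ j ∈ s, b j) := by
  classical
  induction s using Finset.induction_on with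
  | empty =>
    rw [Finset.prod_empty, Finset.sum_empty, OPT_psi]
  | insert i s hi ih =>
    rw [Finset.prod_insert hi, Finset.sum_insert hi]
    refine le_trans (mul_le_mul_of_nonneg_left ih (OPT_nonneg x y hx0 hy0 _)) ?_
    exact OPT_mul x y hx0 hx1 hy0 hyx h1 h2 _ _ _ rfl

lemma OPT_v3 (x y : ℝ) (q : ℕ) : OPT_psi x y (3 * q) = x ^ q := by
  induction q with
  | zero => rw [Nat.mul_zero, pow_zero, OPT_psi]
  | succ q ih =>
    rcases Nat.eq_zero_or_pos q with rfl | hq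
    · rw [show 3 * (0 + 1) = 3 by norm_num, OPT_psi]; ring
    · rw [show 3 * (q + 1) = 3 * q + 3 by ring, OPT_add x y _ (by omega), ih, pow_succ]
      ring

lemma OPT_v2 (x y : ℝ) (q : ℕ) : OPT_psi x y (3 * q + 2) = x ^ (q + 1) := by
  induction q with
  | zero => rw [Nat.mul_zero, Nat.zero_add, OPT_psi]; ring
  | succ q ih =>
    rw [show 3 * (q + 1) + 2 = (3 * q + 2) + 3 by ring, OPT_add x y _ (by omega), ih,
      pow_succ x (q + 1)]
    ring

lemma OPT_v4 (x y : ℝ) (q : ℕ) : OPT_psi x y (3 * q + 4) = y * x ^ q := by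
  induction q with
  | zero => rw [Nat.mul_zero, Nat.zero_add, OPT_psi]; ring
  | succ q ih =>
    rw [show 3 * (q + 1) + 4 = (3 * q + 4) + 3 by ring, OPT_add x y _ (by omega), ih,
      pow_succ x q]
    ring

/-- the bound of one factor -/
lemma OPT_one (n : ℕ) (hn : 8 ≤ n) : ∀ (b g : ℕ), 2 ≤ b → 2 * b + 3 * g ≤ 3 * n →
    (g : ℝ) ≤ n * OPT_psi (1 - 2 / n) (1 - 3 / n) b := by
  have hn0 : (0 : ℝ) < n := by
    have : 0 < n := by omega
    exact_mod_cast this
  intro b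
  induction b using Nat.strong_induction_on with
  | _ b ih =>
  intro g hb hg
  by_cases h5 : 5 ≤ b
  · obtain ⟨c, rfl⟩ : ∃ c, b = c + 5 := ⟨b - 5, by omega⟩
    have h := ih (c + 2) (by omega) (g + 2) (by omega) (by omega)
    rw [OPT_five]
    have hg2 : (g : ℝ) + 2 ≤ n := by
      have : g + 2 ≤ n := by omega
      exact_mod_cast this
    have hx0 : (0 : ℝ) ≤ 1 - 2 / n := by
      have h8 : (8 : ℝ) ≤ n := by exact_mod_cast hn
      rw [sub_nonneg, div_le_one hn0]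
      linarith
    push_cast at h
    have h2 : (1 - 2 / (n : ℝ)) * ((g : ℝ) + 2) ≤
        (1 - 2 / n) * (n * OPT_psi (1 - 2 / n) (1 - 3 / n) (c + 2)) :=
      mul_le_mul_of_nonneg_left h hx0
    have h3 : (g : ℝ) ≤ (1 - 2 / (n : ℝ)) * ((g : ℝ) + 2) := by
      have h4 : 2 / (n : ℝ) * ((g : ℝ) + 2) ≤ 2 := by
        rw [div_mul_eq_mul_div, div_le_iff₀ hn0]
        nlinarith
      nlinarith
    calc (g : ℝ) ≤ _ := h3
      _ ≤ _ := h2
      _ = _ := by ring
  · have hb4 : b = 2 ∨ b = 3 ∨ b = 4 := by omega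
    rcases hb4 with rfl | rfl | rfl
    · have e : (n : ℝ) * OPT_psi (1 - 2 / n) (1 - 3 / n) 2 = n - 2 := by
        rw [OPT_psi]; field_simp
      rw [e]
      have : g + 2 ≤ n := by omega
      have h' : (g : ℝ) + 2 ≤ n := by exact_mod_cast this
      linarith
    · have e : (n : ℝ) * OPT_psi (1 - 2 / n) (1 - 3 / n) 3 = n - 2 := by
        rw [OPT_psi]; field_simp
      rw [e]
      have : g + 2 ≤ n := by omega
      have h' : (g : ℝ) + 2 ≤ n := by exact_mod_cast this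
      linarith
    · have e : (n : ℝ) * OPT_psi (1 - 2 / n) (1 - 3 / n) 4 = n - 3 := by
        rw [OPT_psi]; field_simp
      rw [e]
      have : g + 3 ≤ n := by omega
      have h' : (g : ℝ) + 3 ≤ n := by exact_mod_cast this
      linarith

lemma OPT_pow (n q : ℕ) (hn : 8 ≤ n) (k : ℕ) (hq : q ≤ k) :
    (n : ℝ) ^ k * (1 - 2 / n) ^ q = (n : ℝ) ^ (k - q) * ((n : ℝ) - 2) ^ q := by
  have hn0 : (n : ℝ) ≠ 0 := by
    have : n ≠ 0 := by omega
    exact_mod_cast this
  have e : (n : ℝ) ^ k = (n : ℝ) ^ (k - q) * (n : ℝ) ^ q := by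
    rw [← pow_add, Nat.sub_add_cancel hq]
  rw [e, mul_assoc, ← mul_pow]
  congr 2
  field_simp

lemma OPT_val (n : ℕ) (hn : 8 ≤ n) (hev : Even n) :
    (n : ℝ) ^ (n - 2) * OPT_psi (1 - 2 / n) (1 - 3 / n) (n / 2) = (val n : ℝ) := by
  have hn0 : (n : ℝ) ≠ 0 := by
    have : n ≠ 0 := by omega
    exact_mod_cast this
  have hc2 : ((n - 2 : ℕ) : ℝ) = (n : ℝ) - 2 := by
    rw [Nat.cast_sub (by omega)]; norm_num
  have hc3 : ((n - 3 : ℕ) : ℝ) = (n : ℝ) - 3 := by
    rw [Nat.cast_sub (by omega)]; norm_num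
  obtain ⟨h, hh⟩ := hev
  have hmod : n % 6 = 0 ∨ n % 6 = 2 ∨ n % 6 = 4 := by omega
  unfold val
  rcases hmod with h6 | h6 | h6
  · rw [if_neg (by omega)]
    have e1 : n / 2 = 3 * ((n + 2) / 6) := by omega
    rw [e1, OPT_v3, OPT_pow n _ hn _ (by omega)]
    push_cast
    rw [hc2]
  · rw [if_pos h6]
    have e1 : n / 2 = 3 * ((n + 2) / 6 - 1) + 4 := by omega
    rw [e1, OPT_v4]
    have e2 : (n : ℝ) ^ (n - 2) = (n : ℝ) ^ (n - 3) * n := by
      rw [← pow_succ]
      congr 1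
      omega
    have e3 : (n : ℝ) * (1 - 3 / n) = n - 3 := by field_simp
    have e4 : (n : ℝ) ^ (n - 2) * ((1 - 3 / n) * (1 - 2 / n) ^ ((n + 2) / 6 - 1)) =
        ((n : ℝ) ^ (n - 3) * (1 - 2 / n) ^ ((n + 2) / 6 - 1)) * (n * (1 - 3 / n)) := by
      rw [e2]; ring
    rw [e4, e3, OPT_pow n _ hn _ (by omega)]
    push_cast
    rw [hc2, hc3]
    congr 3
    omega
  · rw [if_neg (by omega)]
    have e1 : n / 2 = 3 * ((n + 2) / 6 - 1) + 2 := by omega
    have e2 : (n + 2) / 6 - 1 + 1 = (n + 2) / 6 := by omega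
    rw [e1, OPT_v2, e2, OPT_pow n _ hn _ (by omega)]
    push_cast
    rw [hc2]

theorem stmt_OPT : Stmt_OPT := by
  intro n a g hev hn ha h1 h2 hsum
  have hn8 : (8 : ℝ) ≤ n := by exact_mod_cast hn
  have hn0 : (0 : ℝ) < n := by linarith
  set x : ℝ := 1 - 2 / n with hx
  set y : ℝ := 1 - 3 / n with hy
  have hi : 0 < 1 / (n : ℝ) := by positivity
  have hi8 : 1 / (n : ℝ) ≤ 1 / 8 := one_div_le_one_div_of_le (by norm_num) hn8
  have ex : x = 1 - 2 * (1 / n) := by rw [hx]; ring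
  have ey : y = 1 - 3 * (1 / n) := by rw [hy]; ring
  have hx0 : 0 ≤ x := by rw [ex]; linarith
  have hx1 : x ≤ 1 := by rw [ex]; linarith
  have hy0 : 0 ≤ y := by rw [ey]; linarith
  have hyx : y ≤ x := by rw [ex, ey]; linarith
  have hxy : x ^ 2 ≤ y := by
    rw [ex, ey]
    nlinarith
  have hyx3 : y ^ 2 ≤ x ^ 3 := by
    rw [ex, ey]
    have h3 : 0 < (1 / (n : ℝ)) ^ 2 := by positivity
    nlinarith [mul_nonneg h3.le (sub_nonneg.mpr hi8)]
  choose b hb using fun j => (ha j)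
  have hb' : ∀ j, a j = 2 * b j := fun j => by rw [hb j]; ring
  have hgj : ∀ j, (g j : ℝ) ≤ n * OPT_psi x y (b j) := by
    intro j
    by_cases hb2 : 2 ≤ b j
    · apply OPT_one n hn _ _ hb2
      have := h1 j
      rw [hb' j] at this
      exact this
    · have h01 : b j = 0 ∨ b j = 1 := by omega
      rcases h01 with h0 | h0
      · rw [h0, OPT_psi, mul_one]
        have : g j ≤ n := by
          have := h1 j
          omega
        exact_mod_cast this
      · rw [h0, OPT_psi]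
        have e : (n : ℝ) * x = n - 2 := by rw [hx]; field_simp
        rw [e]
        have : g j + 2 ≤ n := h2 j (by rw [hb' j, h0]; norm_num)
        have h' : (g j : ℝ) + 2 ≤ n := by exact_mod_cast this
        linarith
  have hbs : ∑ j, b j = n / 2 := by
    have : 2 * ∑ j, b j = n := by
      rw [Finset.mul_sum]
      exact (Finset.sum_congr rfl (fun j _ => (hb' j).symm)).trans hsum
    omega
  have hfin : ((∏ j, g j : ℕ) : ℝ) ≤ (val n : ℝ) := by
    rw [← OPT_val n hn hev, ← hbs]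
    push_cast
    calc ∏ j, (g j : ℝ) ≤ ∏ j, ((n : ℝ) * OPT_psi x y (b j)) := by
          apply Finset.prod_le_prod
          · intro j _
            positivity
          · intro j _
            exact hgj j
      _ = (n : ℝ) ^ (n - 2) * ∏ j, OPT_psi x y (b j) := by
          rw [Finset.prod_mul_distrib, Finset.prod_const, Finset.card_univ, Fintype.card_fin]
      _ ≤ _ := by
          apply mul_le_mul_of_nonneg_left _ (by positivity)
          exact OPT_prod x y hx0 hx1 hy0 hyx hxy hyx3 _ _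
  exact_mod_cast hfin

end Pool.Agent.Work.MP_1ce445_ex
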