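import Pool.Agent.Work.MP_1ce445_ex.Interface

/-!
Block PM of MP_1ce445_ex: Hall's theorem with minimum degree at least one half.
-/

namespace Pool.Agent.Work.MP_1ce445_ex

open Finset Pool.Agent.Work.MP_1ce445_co_56 Pool.Agent.Work.MP_1ce445_lin

open Classical in
theorem stmt_PM : Stmt_PM := by
  intro α β _ _ R hcard h1 h2
  have key : ∃ f : α → β, Function.Injective f ∧ ∀ a, f a ∈ univ.filter (fun b => R a b) := by
    rw [← Finset.all_card_le_biUnion_card_iff_exists_injective]
    intro A
    rcases A.eq_empty_or_nonempty with rfl | ⟨a, ha⟩
    · simp
    by_cases hA : 2 * A.card ≤ Fintype.card α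
    · have hsub : univ.filter (fun b => R a b) ⊆ A.biUnion (fun a => univ.filter (fun b => R a b)) :=
        Finset.subset_biUnion_of_mem (fun a => univ.filter (fun b => R a b)) ha
      have h3 := Finset.card_le_card hsub
      have h4 := h1 a
      omega
    · have hall : A.biUnion (fun a => univ.filter (fun b => R a b)) = univ := by
        ext b
        simp only [Finset.mem_biUnion, Finset.mem_filter, Finset.mem_univ, true_and, iff_true]
        by_contra hcon
        have hdis : Disjoint A (univ.filter (fun a => R a b)) := by
          rw [Finset.disjoint_left]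
          intro x hx hx'
          rw [Finset.mem_filter] at hx'
          exact hcon ⟨x, hx, hx'.2⟩
        have h5 : (A ∪ univ.filter (fun a => R a b)).card ≤ Fintype.card α :=
          Finset.card_le_univ _
        rw [Finset.card_union_of_disjoint hdis] at h5
        have h6 := h2 b
        omega
      rw [hall, Finset.card_univ, ← hcard]
      exact Finset.card_le_univ _
  obtain ⟨f, hf, hR⟩ := key
  have hbij : Function.Bijective f :=
    (Fintype.bijective_iff_injective_and_card f).2 ⟨hf, hcard⟩
  refine ⟨Equiv.ofBijective f hbij, fun a => ?_⟩
  have := hR a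
  rw [Finset.mem_filter] at this
  exact this.2

end Pool.Agent.Work.MP_1ce445_ex
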