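import Pool.Agent.Work.MP_1ce445_ex.Interface

set_option autoImplicit false

namespace Pool.Agent.Work.MP_1ce445_ex

open Finset Pool.Agent.Work.MP_1ce445_co_56 Pool.Agent.Work.MP_1ce445_lin

open Classical in
lemma REM_count {α : Type} [Fintype α] {s : ℕ} (b : Fin s) (W : α → Prop) (g : ∀ t : Fin s, b ≠ t → α)
    (inj : ∀ t t' h h', g t h = g t' h' → t = t') (dis : ∀ t h, ¬ W (g t h))
    (h3 : (univ.filter (fun y => W y)).card = 3) :
    (univ.filter (fun y => ¬ (W y ∨ ∃ (t : Fin s) (h : b ≠ t), g t h = y))).card + (s + 2) = Fintype.card α := by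
  have h1 := Finset.card_filter_add_card_filter_not (s := (univ : Finset α))
    (fun y => W y ∨ ∃ (t : Fin s) (h : b ≠ t), g t h = y)
  rw [Finset.card_univ] at h1
  have hs : 0 < s := lt_of_le_of_lt (Nat.zero_le _) b.2
  have h4 : (univ.filter (fun y => ∃ (t : Fin s) (h : b ≠ t), g t h = y)).card = s - 1 := by
    have e1 : (univ.filter (fun t : Fin s => b ≠ t)).card = s - 1 := by
      have := Finset.card_filter_add_card_filter_not (s := (univ : Finset (Fin s))) (fun t => b = t)
      rw [Finset.card_univ, Fintype.card_fin] at this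
      have e2 : (univ.filter (fun t : Fin s => b = t)).card = 1 := by
        rw [Finset.card_eq_one]
        exact ⟨b, by ext t; simp [eq_comm]⟩
      have e3 : (univ.filter (fun t : Fin s => b ≠ t)).card = (univ.filter (fun t : Fin s => ¬ b = t)).card := rfl
      omega
    rw [← e1]
    symm
    refine Finset.card_bij (fun t ht => g t (Finset.mem_filter.1 ht).2) ?_ ?_ ?_
    · intro t ht
      exact Finset.mem_filter.2 ⟨Finset.mem_univ _, t, (Finset.mem_filter.1 ht).2, rfl⟩
    · intro t ht t' ht' he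
      exact inj t t' _ _ he
    · intro y hy
      obtain ⟨t, h, he⟩ := (Finset.mem_filter.1 hy).2
      exact ⟨t, Finset.mem_filter.2 ⟨Finset.mem_univ _, h⟩, he⟩
  have h5 : (univ.filter (fun y => W y ∨ ∃ (t : Fin s) (h : b ≠ t), g t h = y)).card
      = (univ.filter (fun y => W y)).card
        + (univ.filter (fun y => ∃ (t : Fin s) (h : b ≠ t), g t h = y)).card := by
    rw [Finset.filter_or, Finset.card_union_of_disjoint]
    rw [Finset.disjoint_left]
    intro y hy hy'
    obtain ⟨t, h, he⟩ := (Finset.mem_filter.1 hy').2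
    have hW := (Finset.mem_filter.1 hy).2
    rw [← he] at hW
    exact dis t h hW
  omega

theorem stmt_REM (h1 : Stmt_KOE) : Stmt_REM := by
  classical
  intro α _ s r U β β' hC hcard N hnu hnn
  have hr1 : ∀ x, (univ.filter (fun y => U x y)).card = 3 := fun x => by convert hC.reg1 x
  have hr2 : ∀ y, (univ.filter (fun x => U x y)).card = 3 := fun y => by convert hC.reg2 y
  obtain ⟨used, hused⟩ : ∃ used : α → α → Prop,
      ∀ x y, used x y ↔ (U x y ∨ ∃ (t : Fin s) (hx : β x ≠ t), (N t ⟨x, hx⟩ : α) = y) :=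
    ⟨_, fun _ _ => Iff.rfl⟩
  have hused' : ∀ x y, used x y ↔
      (U x y ∨ ∃ (t : Fin s) (hy : β' y ≠ t), ((N t).symm ⟨y, hy⟩ : α) = x) := by
    intro x y
    rw [hused]
    refine or_congr Iff.rfl ⟨?_, ?_⟩
    · rintro ⟨t, hx, he⟩
      have hy : β' y ≠ t := by
        rw [← he]
        exact (N t ⟨x, hx⟩).2
      refine ⟨t, hy, ?_⟩
      have e1 : (⟨y, hy⟩ : {y // β' y ≠ t}) = N t ⟨x, hx⟩ := Subtype.ext he.symm
      rw [e1, Equiv.symm_apply_apply]
    · rintro ⟨t, hy, he⟩
      have hx : β x ≠ t := by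
        rw [← he]
        exact ((N t).symm ⟨y, hy⟩).2
      refine ⟨t, hx, ?_⟩
      have e1 : (⟨x, hx⟩ : {x // β x ≠ t}) = (N t).symm ⟨y, hy⟩ := Subtype.ext he.symm
      rw [e1, Equiv.apply_symm_apply]
  have hrow : ∀ x, ∑ y, (if used x y then 0 else 1) = r := by
    intro x
    have h := REM_count (β x) (fun y => U x y) (fun t h => (N t ⟨x, h⟩ : α))
      (fun t t' h h' e => hnn t t' x h h' e) (fun t h => hnu t ⟨x, h⟩) (hr1 x)
    have h2 : ∑ y, (if used x y then 0 else 1) = (univ.filter (fun y => ¬ used x y)).card := by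
      rw [Finset.card_filter]
      exact Finset.sum_congr rfl (fun y _ => by by_cases hh : used x y <;> simp [hh])
    rw [h2]
    have h3 : (univ.filter (fun y => ¬ used x y)) = (univ.filter (fun y => ¬ (U x y ∨
        ∃ (t : Fin s) (h : β x ≠ t), (N t ⟨x, h⟩ : α) = y))) :=
      Finset.filter_congr (fun y _ => by rw [hused])
    rw [h3]
    omega
  have hcol : ∀ y, ∑ x, (if used x y then 0 else 1) = r := by
    intro y
    have h := REM_count (β' y) (fun x => U x y) (fun t h => ((N t).symm ⟨y, h⟩ : α))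
      (by
        intro t t' h h' e
        have hx' : β ((N t).symm ⟨y, h⟩ : α) ≠ t' := by
          rw [e]
          exact ((N t').symm ⟨y, h'⟩).2
        refine hnn t t' ((N t).symm ⟨y, h⟩ : α) ((N t).symm ⟨y, h⟩).2 hx' ?_
        have e1 : (⟨((N t).symm ⟨y, h⟩ : α), ((N t).symm ⟨y, h⟩).2⟩ : {x // β x ≠ t})
            = (N t).symm ⟨y, h⟩ := rfl
        have e2 : (⟨((N t).symm ⟨y, h⟩ : α), hx'⟩ : {x // β x ≠ t'})
            = (N t').symm ⟨y, h'⟩ := Subtype.ext e
        rw [e1, e2, Equiv.apply_symm_apply, Equiv.apply_symm_apply])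
      (by
        intro t h hU
        have := hnu t ((N t).symm ⟨y, h⟩)
        rw [Equiv.apply_symm_apply] at this
        exact this hU) (hr2 y)
    have h2 : ∑ x, (if used x y then 0 else 1) = (univ.filter (fun x => ¬ used x y)).card := by
      rw [Finset.card_filter]
      exact Finset.sum_congr rfl (fun x _ => by by_cases hh : used x y <;> simp [hh])
    rw [h2]
    have h3 : (univ.filter (fun x => ¬ used x y)) = (univ.filter (fun x => ¬ (U x y ∨
        ∃ (t : Fin s) (h : β' y ≠ t), ((N t).symm ⟨y, h⟩ : α) = x))) :=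
      Finset.filter_congr (fun x _ => by rw [hused'])
    rw [h3]
    omega
  obtain ⟨π, hπ⟩ := h1 α α r (fun x y => if used x y then 0 else 1) rfl hrow hcol
  have hone : ∀ x y i, π i x = y → ¬ used x y := by
    intro x y i hi hu
    have h := hπ x y
    simp only [hu, if_true] at h
    have h2 := Finset.card_eq_zero.1 h.symm
    have h3 : i ∈ univ.filter (fun i => π i x = y) := Finset.mem_filter.2 ⟨Finset.mem_univ _, hi⟩
    rw [h2] at h3
    exact absurd h3 (Finset.notMem_empty _)
  refine ⟨π, ?_, hnu, ?_, hnn, ?_, ?_⟩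
  · intro x y
    by_cases hu : used x y
    · rcases (hused x y).1 hu with h | h
      · exact Or.inl h
      · exact Or.inr (Or.inl h)
    · right
      right
      have h := hπ x y
      simp only [hu, if_false] at h
      have h2 : 0 < (univ.filter (fun i => π i x = y)).card := by omega
      obtain ⟨i, hi⟩ := Finset.card_pos.1 h2
      exact ⟨i, (Finset.mem_filter.1 hi).2⟩
  · intro i x hU
    exact hone x (π i x) i rfl ((hused _ _).2 (Or.inl hU))
  · intro t i x he
    exact hone x (π i x) i rfl ((hused _ _).2 (Or.inr ⟨t, x.2, he⟩))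
  · intro i i' x he
    have hu : ¬ used x (π i x) := hone x (π i x) i rfl
    have h := hπ x (π i x)
    simp only [hu, if_false] at h
    have h2 : (univ.filter (fun j => π j x = π i x)).card = 1 := h.symm
    obtain ⟨a, ha⟩ := Finset.card_eq_one.1 h2
    have m1 : i ∈ univ.filter (fun j => π j x = π i x) := Finset.mem_filter.2 ⟨Finset.mem_univ _, rfl⟩
    have m2 : i' ∈ univ.filter (fun j => π j x = π i x) := Finset.mem_filter.2 ⟨Finset.mem_univ _, he.symm⟩
    rw [ha, Finset.mem_singleton] at m1 m2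
    rw [m1, m2]

end Pool.Agent.Work.MP_1ce445_ex
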