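import Pool.Agent.Work.MP_1ce445_ex.UPE
import Pool.Agent.Work.MP_1ce445_ex.LOS
import Pool.Agent.Work.MP_1ce445_ex.OPT
import Pool.Agent.Work.MP_1ce445_ex.LOE
import Pool.Agent.Work.MP_1ce445_ex.ASM
import Pool.Agent.Work.MP_1ce445_ex.CONB
import Pool.Agent.Work.MP_1ce445_ex.PM
import Pool.Agent.Work.MP_1ce445_ex.GRE
import Pool.Agent.Work.MP_1ce445_ex.REM
import Pool.Agent.Work.MP_1ce445_ex.B0
import Pool.Agent.Work.MP_1ce445_ex.B2
import Pool.Agent.Work.MP_1ce445_ex.B4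
import Pool.Agent.Work.MP_1ce445_lin.KOE

/-!
The exact value of `P n (n - 2)`: all blocks together.
-/

namespace Pool.Agent.Work.MP_1ce445_ex

open Finset Pool.Agent.Work.MP_1ce445_co_56 Pool.Agent.Work.MP_1ce445_lin

theorem hUPE : Stmt_UPE := stmt_UPE stmt_LOS stmt_OPT

theorem hLOE : Stmt_LOE :=
  stmt_LOE stmt_ASM stmt_CON (stmt_GRE stmt_PM) (stmt_REM stmt_KOE) stmt_B0 stmt_B2 stmt_B4

/-- The value for even `n ≥ 48`. -/
theorem even_value {n : ℕ} (h48 : 48 ≤ n) (hn : Even n) : P n (n - 2) = val n :=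
  le_antisymm (hUPE n hn (by omega)) (hLOE n hn h48)

/-- All values. -/
theorem all_values (n : ℕ) :
    (7 ≤ n → Odd n → P n (n - 2) = (n - 1) ^ (n - 2)) ∧
    (48 ≤ n → n % 6 = 0 ∨ n % 6 = 4 →
      P n (n - 2) = n ^ (n - 2 - (n + 2) / 6) * (n - 2) ^ ((n + 2) / 6)) ∧
    (48 ≤ n → n % 6 = 2 →
      P n (n - 2) = n ^ (n - 2 - (n + 2) / 6) * (n - 2) ^ ((n + 2) / 6 - 1) * (n - 3)) := by
  refine ⟨fun h7 hn => odd_value h7 hn, fun h48 h => ?_, fun h48 h => ?_⟩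
  · have hev : Even n := by
      rw [Nat.even_iff]; omega
    rw [even_value h48 hev, val, if_neg (by omega)]
  · have hev : Even n := by
      rw [Nat.even_iff]; omega
    rw [even_value h48 hev, val, if_pos h]

end Pool.Agent.Work.MP_1ce445_ex
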