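import Pool.Agent.Work.MP_1ce445_lin.Interface2
import Pool.Agent.Work.MP_1ce445_co_56.Odd

/-!
THEOREM EX for MP_1ce445_co: the exact value of `P n (n - 2)` for even `n ≥ 48`. Definitions and statements of
the blocks, with complete proofs in the docstrings.

One file `Pool/Agent/Work/MP_1ce445_ex/<ID>.lean` per block, `import Pool.Agent.Work.MP_1ce445_ex.Interface`,
same `open` lines, theorem `stmt_<ID>` with exactly the statements of the column `uses` as hypotheses, in this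
order; auxiliary lemmas with the name of the block in front (`LOS_aux`).

Overview. Let `n = 2 h` be even. Every vertex has degree 2 in exactly one of the `n - 2` factors and degree 1 in
the others. UPPER BOUND: a factor with `a` vertices of degree 2 has `gammaT ≤ n - a/3` (LOS); `a` is even, and
`gammaT ≤ n - 2` if `a > 0`; optimization over `∑ a_j = n` (OPT). LOWER BOUND: the vertices are `A ∪ B`,
`A = B = ZMod h`, in blocks: hexagons `3 + 3`, and one block with a 4-cycle (`h = 2` modulo 3) or a triangle and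
a 5-cycle (`h = 1` modulo 3). `h` factors are the classes `D c` (`x + y = c` inside `A` and inside `B`, the pair
`(x, x')` if `2 x = c`). All pairs inside `A` and `B` are used by them and by the special cycles; the cross pairs
used by them and by the special cycles form a relation `U` in which every vertex has degree 3 (`Bas`). `s` pairwise
disjoint bijections `N t` between the complements of the block `t` in `A` and `B` avoiding `U` are found by Hall
(PM, GRE), the remaining cross pairs are a union of `r = h - 2 - s` bijections (`Stmt_KOE`, REM). Factors: `D c`,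
the bijections `M i` of the remainder, and for each block `t` its special cycles together with `N t` (ASM, CON).
-/

namespace Pool.Agent.Work.MP_1ce445_ex

open Finset Pool.Agent.Work.MP_1ce445_co_56 Pool.Agent.Work.MP_1ce445_lin

/-- The value of `P n (n - 2)` for even `n`: with `s = (n + 2) / 6`, it is `n ^ (n - 2 - s) * (n - 2) ^ s` if `n` is
`0` or `4` modulo `6`, and `n ^ (n - 2 - s) * (n - 2) ^ (s - 1) * (n - 3)` if `n` is `2` modulo `6`. -/
def val (n : ℕ) : ℕ :=
  if n % 6 = 2 then n ^ (n - 2 - (n + 2) / 6) * (n - 2) ^ ((n + 2) / 6 - 1) * (n - 3)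
  else n ^ (n - 2 - (n + 2) / 6) * (n - 2) ^ ((n + 2) / 6)

/-! ### Upper bound -/

/-- LOS (120 lines). Let `a = #{v | deg v = 2}`. (1) Call `x` allowed if all its neighbours have degree 2. A vertex
which is not allowed has a neighbour of degree 1, and a vertex of degree 1 has only one neighbour, so at most `|V| - a`
vertices are not allowed. Conflict: `x ≠ y` have a common neighbour; every `x` conflicts with at most 2 vertices (at
most 2 neighbours, each has at most one other neighbour). Let `R` be a set of allowed vertices without conflicts, of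
maximal cardinality; every allowed vertex is in `R` or conflicts with an element of `R`, so `a ≤ #allowed ≤ 3 |R|`.
`V \ R` is a total dominating set: a vertex `v` of degree 1 has a neighbour which is not allowed; a vertex of degree
2 has two neighbours `x ≠ y`, not both in `R`. So `gammaT + |R| ≤ |V|` (`gammaT_le_card`). (2) The sum of the degrees
is `|V| + a` and even (`SimpleGraph.sum_degrees_eq_twice_card_edges`, as in `gammaT_add_one_le` of `Odd.lean`). (3) Let
`|V|` be even and `a > 0`; `a` is even. If `a ≥ 4`, (1) gives `3 gammaT ≤ 3 |V| - 4`. If `a = 2`, let `u ≠ w` be the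
vertices of degree 2, `x ≠ w` a neighbour of `u`, `y ≠ u` a neighbour of `w`; then `x, y` have degree 1, `x ≠ y`, and
`V \ {x, y}` is a total dominating set (`x` is adjacent to `u` only, `y` to `w` only, `u` has a second neighbour, it is
not `x`, and it is not `y` because `y` is adjacent to `w` only; the same for `w`). -/
def Stmt_LOS : Prop :=
  ∀ {V : Type} [Fintype V] [DecidableEq V] (G : SimpleGraph V),
    (∀ v, 1 ≤ dg G v ∧ dg G v ≤ 2) →
    (univ.filter (fun v => dg G v = 2)).card + 3 * gammaT G ≤ 3 * Fintype.card V ∧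
    (Even (Fintype.card V) → Even ((univ.filter (fun v => dg G v = 2)).card) ∧
      (0 < (univ.filter (fun v => dg G v = 2)).card → gammaT G + 2 ≤ Fintype.card V))

/-- OPT (150 lines), real numbers. Let `x = 1 - 2/n`, `y = 1 - 3/n` (in `[0,1]`, `y ≤ x`, `x² ≤ y ≤ x`, `y² ≤ x³` for
`n ≥ 4`), and for `b : ℕ`: `ψ (3q) = x^q`, `ψ (3q+2) = x^(q+1)`, `ψ 1 = x`, `ψ (3q+1) = y x^(q-1)` for `q ≥ 1`.
(i) `g j ≤ n ψ (a j / 2)`: `a = 6q`: `g ≤ n - 2q`, `1 - 2q/n ≤ x^q` (Bernoulli, `one_add_mul_le_pow`); `a = 6q+4`: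
`g ≤ n - 2q - 2`; `a = 6q+2`, `q ≥ 1`: `g ≤ n - 2q - 1` and `1 - (2q+1)/n ≤ (1 - 3/n)(1 - 2(q-1)/n) ≤ y x^(q-1)`;
`a = 2`: `g ≤ n - 2`. (ii) `ψ b ψ b' ≤ ψ (b + b')` (classes modulo 3; uses `x² ≤ y`, `y² ≤ x³`, `y ≤ x ≤ 1`), so
`∏ ψ (b j) ≤ ψ (∑ b j)`. (iii) `n^(n-2) ψ (n/2) = val n`. -/
def Stmt_OPT : Prop :=
  ∀ (n : ℕ) (a g : Fin (n - 2) → ℕ), Even n → 8 ≤ n → (∀ j, Even (a j)) →
    (∀ j, a j + 3 * g j ≤ 3 * n) → (∀ j, 0 < a j → g j + 2 ≤ n) → ∑ j, a j = n →
    ∏ j, g j ≤ val n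

/-- UPE (100 lines; uses LOS OPT). `P_le`; for a factorization `G : Fin (n-2) → SimpleGraph (Fin n)` and a vertex `v`:
`∑ j, dg (G j) v = n - 1` (`sum_degree`), all terms are `≥ 1`, so all are `≤ 2` and exactly one is `2`. Double counting:
`∑ j, #{v | dg (G j) v = 2} = n`. OPT with `a j = #{v | dg (G j) v = 2}`, `g j = gammaT (G j)`. -/
def Stmt_UPE : Prop := ∀ n : ℕ, Even n → 8 ≤ n → P n (n - 2) ≤ val n

/-! ### The assembly -/

/-- Data for the assembly: perfect matchings `μ i` (fixed-point-free involutions), for each block `t` a perfect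
matching `ν t` of the complement of the block, and a relation `Sp` (the special cycles) inside the blocks; every pair
is used exactly once. `l t`: at most `l t` vertices of the block `t` can be missed by a set which dominates the block
through `Sp`. -/
structure Dat {V I : Type} [Fintype V] {s : ℕ} (blk : V → Fin s) (Sp : V → V → Prop)
    (μ : I → V → V) (ν : Fin s → V → V) (l : Fin s → ℕ) : Prop where
  mu_inv : ∀ i v, μ i (μ i v) = v
  mu_ne : ∀ i v, μ i v ≠ v
  nu_blk : ∀ t v, blk v ≠ t → blk (ν t v) ≠ t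
  nu_inv : ∀ t v, blk v ≠ t → ν t (ν t v) = v
  nu_ne : ∀ t v, blk v ≠ t → ν t v ≠ v
  sp_symm : ∀ v w, Sp v w → Sp w v
  sp_irr : ∀ v, ¬ Sp v v
  sp_blk : ∀ v w, Sp v w → blk v = blk w
  cov : ∀ v w, v ≠ w → Sp v w ∨ (∃ i, μ i v = w) ∨ ∃ t, blk v ≠ t ∧ ν t v = w
  d1 : ∀ i j v, μ i v = μ j v → i = j
  d2 : ∀ t t' v, blk v ≠ t → blk v ≠ t' → ν t v = ν t' v → t = t'
  d3 : ∀ t i v, blk v ≠ t → ν t v ≠ μ i v
  d4 : ∀ v w i, Sp v w → μ i v ≠ w
  d5 : ∀ v w t, Sp v w → blk v ≠ t → ν t v ≠ w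
  deg : ∀ v, ∃ w, Sp v w
  loss : ∀ t (R : Finset V), (∀ v ∈ R, blk v = t) →
    (∀ v, blk v = t → ∃ w, Sp v w ∧ w ∉ R) → R.card ≤ l t

/-- ASM (150 lines). Factors: index type `I ⊕ Fin s`; `inl i`: `Adj v w ↔ μ i v = w`; `inr t`:
`Adj v w ↔ (blk v = t ∧ Sp v w) ∨ (blk v ≠ t ∧ ν t v = w)` (symmetric by `sp_blk`, `nu_blk`, `nu_inv`).
`IsFactorization.of_adj`, then `le_P`. `gammaT (inl i) ≥ n` by `card_le_gammaT` with `f = id`, `g = μ i`. For `inr t`
let `S` be a minimal total dominating set (`exists_tds`), `R = univ \ S`: if `v ∈ R` and `blk v ≠ t` then `v` is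
the only neighbour of `ν t v`, a contradiction; so `R` is in the block `t`, and `loss` gives `|R| ≤ l t`. -/
def Stmt_ASM : Prop :=
  ∀ {V I : Type} [Fintype V] [Fintype I] {s : ℕ} (blk : V → Fin s) (Sp : V → V → Prop)
    (μ : I → V → V) (ν : Fin s → V → V) (l : Fin s → ℕ), Dat blk Sp μ ν l →
    Fintype.card V ^ Fintype.card I * ∏ t, (Fintype.card V - l t) ≤
      P (Fintype.card V) (Fintype.card I + s)

/-- Base structure on `α ⊕ α` (`A = inl`, `B = inr`): the classes `D c`, the special relation `Sp`, the reserved cross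
pairs `U`, the blocks `β` of `A` and `β'` of `B`. -/
structure Bas (α : Type) [Fintype α] (s : ℕ) (U : α → α → Prop) (β β' : α → Fin s)
    (Sp : α ⊕ α → α ⊕ α → Prop) (D : α → α ⊕ α → α ⊕ α) (l : Fin s → ℕ) : Prop where
  d_inv : ∀ c v, D c (D c v) = v
  d_ne : ∀ c v, D c v ≠ v
  d_dis : ∀ c c' v, D c v = D c' v → c = c'
  sp_symm : ∀ v w, Sp v w → Sp w v
  sp_irr : ∀ v, ¬ Sp v v
  sp_blk : ∀ v w, Sp v w → Sum.elim β β' v = Sum.elim β β' w
  sp_d : ∀ v w c, Sp v w → D c v ≠ w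
  inA : ∀ x x', x ≠ x' → Sp (.inl x) (.inl x') ∨ ∃ c, D c (.inl x) = .inl x'
  inB : ∀ x x', x ≠ x' → Sp (.inr x) (.inr x') ∨ ∃ c, D c (.inr x) = .inr x'
  cross : ∀ x y, U x y ↔ Sp (.inl x) (.inr y) ∨ ∃ c, D c (.inl x) = .inr y
  deg : ∀ v, ∃ w, Sp v w
  loss : ∀ t (R : Finset (α ⊕ α)), (∀ v ∈ R, Sum.elim β β' v = t) →
    (∀ v, Sum.elim β β' v = t → ∃ w, Sp v w ∧ w ∉ R) → R.card ≤ l t

open Classical in
/-- the counting conditions on `U` and the blocks -/
structure Cnt (α : Type) [Fintype α] (s : ℕ) (U : α → α → Prop) (β β' : α → Fin s) : Prop where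
  reg1 : ∀ x, (univ.filter (fun y => U x y)).card = 3
  reg2 : ∀ y, (univ.filter (fun x => U x y)).card = 3
  siz : ∀ t, (univ.filter (fun x => β x = t)).card = (univ.filter (fun y => β' y = t)).card
  siz4 : ∀ t, (univ.filter (fun x => β x = t)).card ≤ 4

/-- The decomposition of the cross pairs: reserved pairs, the bijections `N t` between the complements of the blocks,
and the bijections `M i`. -/
structure Ext {α : Type} {s r : ℕ} (U : α → α → Prop) (β β' : α → Fin s)
    (N : ∀ t : Fin s, {x // β x ≠ t} ≃ {y // β' y ≠ t}) (M : Fin r → (α ≃ α)) : Prop where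
  cov : ∀ x y, U x y ∨ (∃ (t : Fin s) (hx : β x ≠ t), (N t ⟨x, hx⟩ : α) = y) ∨ ∃ i, M i x = y
  nu : ∀ t (x : {x // β x ≠ t}), ¬ U x (N t x)
  mu : ∀ i x, ¬ U x (M i x)
  nn : ∀ t t' x (hx : β x ≠ t) (hx' : β x ≠ t'), (N t ⟨x, hx⟩ : α) = N t' ⟨x, hx'⟩ → t = t'
  nm : ∀ t i (x : {x // β x ≠ t}), (N t x : α) ≠ M i x
  mm : ∀ i i' x, M i x = M i' x → i = i'

/-- CON (150 lines). `V = α ⊕ α`, `I = α ⊕ Fin r`, `blk = Sum.elim β β'`, `Sp` the same, `μ (inl c) = D c`,
`μ (inr i) (inl x) = inr (M i x)`, `μ (inr i) (inr y) = inl ((M i).symm y)`, `ν t (inl x) = inr (N t ⟨x, _⟩)` if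
`β x ≠ t` and `inl x` otherwise, `ν t (inr y) = inl ((N t).symm ⟨y, _⟩)` if `β' y ≠ t` and `inr y` otherwise. All
fields of `Dat` by cases; a cross pair `inl x, inr y` is in `Sp` or in some `D c` iff `U x y` (`cross`). -/
def Stmt_CON : Prop :=
  ∀ {α : Type} [Fintype α] {s r : ℕ} (U : α → α → Prop) (β β' : α → Fin s)
    (Sp : α ⊕ α → α ⊕ α → Prop) (D : α → α ⊕ α → α ⊕ α) (l : Fin s → ℕ)
    (N : ∀ t : Fin s, {x // β x ≠ t} ≃ {y // β' y ≠ t}) (M : Fin r → (α ≃ α)),
    Bas α s U β β' Sp D l → Ext U β β' N M →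
    ∃ (μ : α ⊕ Fin r → α ⊕ α → α ⊕ α) (ν : Fin s → α ⊕ α → α ⊕ α),
      Dat (Sum.elim β β') Sp μ ν l

/-! ### The extension by Hall and Koenig -/

open Classical in
/-- PM (80 lines). Hall's theorem (`Finset.all_card_le_biUnion_card_iff_exists_injective`) for the sets
`{b | R a b}`: let `A` be a nonempty set of elements of `α`. If `2 |A| ≤ |α|`: one `a ∈ A` has `|β|/2 ≥ |A|` neighbours.
If `2 |A| > |α|`: every `b` has a neighbour in `A` (its at least `|α|/2` neighbours cannot all be outside), so all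
`|β| = |α|` elements are neighbours. The injective map is a bijection. -/
def Stmt_PM : Prop :=
  ∀ (α β : Type) [Fintype α] [Fintype β] (R : α → β → Prop), Fintype.card α = Fintype.card β →
    (∀ a, Fintype.card β ≤ 2 * (univ.filter (fun b => R a b)).card) →
    (∀ b, Fintype.card α ≤ 2 * (univ.filter (fun a => R a b)).card) →
    ∃ f : α ≃ β, ∀ a, R a (f a)

/-- GRE (150 lines; uses PM). For all `j ≤ s` there is `N` with the two properties for the indices `t, t' < j`
(induction; `j = 0`: any bijections, the cardinalities agree by `siz`; step: `Function.update N t f`). Step for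
`t = j`: PM for `{x // β x ≠ t}`, `{y // β' y ≠ t}` and the relation `¬ U x y` and `y` is not `N t' ⟨x, _⟩` for
`t' < t` with `β x ≠ t'`. Let `m = |{y | β' y ≠ t}| ≥ h - 4`, `h = |α|`. At most `3 + t ≤ s + 2` of the `y` are
excluded for a given `x` (and the same for the `x` and a given `y`: for each `t' < t` at most one `x`), and
`m ≤ 2 (m - s - 2)` as `h ≥ 2 s + 8`. -/
def Stmt_GRE : Prop :=
  ∀ (α : Type) [Fintype α] (s : ℕ) (U : α → α → Prop) (β β' : α → Fin s), Cnt α s U β β' →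
    2 * s + 8 ≤ Fintype.card α →
    ∃ N : ∀ t : Fin s, {x // β x ≠ t} ≃ {y // β' y ≠ t},
      (∀ t (x : {x // β x ≠ t}), ¬ U x (N t x)) ∧
      ∀ t t' x (hx : β x ≠ t) (hx' : β x ≠ t'), (N t ⟨x, hx⟩ : α) = N t' ⟨x, hx'⟩ → t = t'

/-- REM (150 lines; uses KOE). Let `c x y = 0` if `U x y` or `y = N t ⟨x, _⟩` for some `t ≠ β x`, otherwise `c x y = 1`.
Row sums: `|α| - 3 - (s - 1) = r` (the `s - 1` values `N t ⟨x, _⟩` are different and not in `U x`); column sums the
same with `(N t).symm`. KOE with `k = r`, `α = β`: `c x y = #{i | π i x = y}`. So each `π i x = y` implies `c x y = 1`,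
and then `i` is unique. -/
def Stmt_REM : Prop :=
  ∀ (α : Type) [Fintype α] (s r : ℕ) (U : α → α → Prop) (β β' : α → Fin s), Cnt α s U β β' →
    Fintype.card α = r + s + 2 → ∀ N : ∀ t : Fin s, {x // β x ≠ t} ≃ {y // β' y ≠ t},
    (∀ t (x : {x // β x ≠ t}), ¬ U x (N t x)) →
    (∀ t t' x (hx : β x ≠ t) (hx' : β x ≠ t'),
      (N t ⟨x, hx⟩ : α) = N t' ⟨x, hx'⟩ → t = t') →
    ∃ M : Fin r → (α ≃ α), Ext U β β' N M

/-! ### The three base structures -/

/-- B0 (120 lines), `h = 3 s`. `β x = β' x = x.val / 3`. `U x y ↔ x.val / 3 = y.val / 3`. `Sp` only for cross pairs: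
`Sp (inl x) (inr y) ↔ x ≠ y ∧ x.val / 3 = y.val / 3`. `D c (inl x) = inr x` if `x + x = c`, otherwise
`inl (c - x)`; `D c (inr x) = inl x` if `x + x = c`, otherwise `inr (c - x)`. `loss`: `R` has at most one element in
`A` (if `x ≠ x'` of the block are in `R` and `z` is the third element then both neighbours of `inr z` are in `R`), and
at most one in `B`. -/
def Stmt_B0 : Prop :=
  ∀ (h s : ℕ) [NeZero h], h = 3 * s → 4 ≤ s →
    ∃ (U : ZMod h → ZMod h → Prop) (β β' : ZMod h → Fin s)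
      (Sp : ZMod h ⊕ ZMod h → ZMod h ⊕ ZMod h → Prop) (D : ZMod h → ZMod h ⊕ ZMod h → ZMod h ⊕ ZMod h),
      Bas (ZMod h) s U β β' Sp D (fun _ => 2) ∧ Cnt (ZMod h) s U β β'

/-- B2 (180 lines), `h = 3 s + 2`, blocks: `Fin (s + 1)`. `τ` is the involution of `ZMod h` which exchanges `0, 2` and
`1, 3`. `β x = 0` if `x.val < 2`, otherwise `(x.val - 2) / 3 + 1`; `β' y = β (τ y)`. `Sp` only for cross pairs:
`Sp (inl x) (inr y)` iff (`2 ≤ x.val`, `2 ≤ (τ y).val`, `x ≠ τ y`, `β x = β (τ y)`) or (`x.val < 2`,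
`(τ y).val < 2`). `U x y ↔ x = y ∨ Sp (inl x) (inr y)`. `D` as in B0. For `x.val ≥ 2`: `τ x = x` or `(τ x).val < 2`,
so the pair `x, x` is not in `Sp`; the same for `x.val < 2`. Block 0 is a 4-cycle (`K_{2,2}`), the others are
hexagons; `R` has at most one element in `A` and at most one in `B`. -/
def Stmt_B2 : Prop :=
  ∀ (h s : ℕ) [NeZero h], h = 3 * s + 2 → 4 ≤ s →
    ∃ (U : ZMod h → ZMod h → Prop) (β β' : ZMod h → Fin (s + 1))
      (Sp : ZMod h ⊕ ZMod h → ZMod h ⊕ ZMod h → Prop) (D : ZMod h → ZMod h ⊕ ZMod h → ZMod h ⊕ ZMod h),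
      Bas (ZMod h) (s + 1) U β β' Sp D (fun _ => 2) ∧ Cnt (ZMod h) (s + 1) U β β'

/-- B4 (300 lines), `h = 3 s + 4`, blocks: `Fin (s + 1)`. `τ` is the involution of `ZMod h` which exchanges
`0, 4` and `1, 5` and `2, -2` and `3, -1`. `β x = 0` if `x.val < 4`, otherwise `(x.val - 4) / 3 + 1`;
`β' y = β (τ y)`. `Sp (inl x) (inr y)` iff (`4 ≤ x.val`, `4 ≤ (τ y).val`, `x ≠ τ y`, `β x = β (τ y)`) or
`(x, τ y)` is one of `(0,1), (3,1), (1,3), (2,0), (2,2), (1,2)`; `Sp (inl x) (inl x')` iff `{x, x'} = {0, 3}`;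
`Sp (inr y) (inr y')` iff `{y, y'} = {4, -1}`. `U x y ↔ x = y ∨ Sp (inl x) (inr y) ∨ (x, τ y) ∈ {(0,3), (3,0)}`. `D c`
as in B0, except for `c = 3`: `D 3 (inl 0) = inr (-1)`, `D 3 (inl 3) = inr 4`, `D 3 (inr (-1)) = inl 0`,
`D 3 (inr 4) = inl 3` (note `τ (-1) = 3`, `τ 4 = 0`). Block 0: the triangle `inl 0, inl 3, inr 5` and the 5-cycle
`inl 1, inr (-1), inr 4, inl 2, inr (-2)` (`τ 5 = 1`, `τ (-2) = 2`): `R` has at most one element in the triangle and at
most two in the 5-cycle (no two at distance 2). The other blocks are hexagons. `h ≥ 16`, so `0, 1, 2, 3, 4, 5, -1, -2` are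
different; checked by a program for all `12 ≤ h < 50`. -/
def Stmt_B4 : Prop :=
  ∀ (h s : ℕ) [NeZero h], h = 3 * s + 4 → 4 ≤ s →
    ∃ (U : ZMod h → ZMod h → Prop) (β β' : ZMod h → Fin (s + 1))
      (Sp : ZMod h ⊕ ZMod h → ZMod h ⊕ ZMod h → Prop) (D : ZMod h → ZMod h ⊕ ZMod h → ZMod h ⊕ ZMod h),
      Bas (ZMod h) (s + 1) U β β' Sp D (fun t => if t = 0 then 3 else 2) ∧
      Cnt (ZMod h) (s + 1) U β β'

/-- LOE (100 lines; uses ASM CON GRE REM B0 B2 B4). `n = 2 h`, `h ≥ 24`. `h = 3 s`: B0 with `s`, `r = h - 2 - s`;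
`h = 3 s + 2`: B2, `s + 1` blocks, `r = h - 3 - s`. `h = 3 s + 4`: B4, `s + 1` blocks, `r = h - 3 - s`.
GRE (hypothesis `2 (number of blocks) + 8 ≤ h`, true for `h ≥ 24`), REM, CON, ASM: `|V| = 2 h = n`, `|I| = h + r`, `|I| + (number of blocks) = n - 2`, and the left side of ASM is
`val n`. -/
def Stmt_LOE : Prop := ∀ n : ℕ, Even n → 48 ≤ n → val n ≤ P n (n - 2)

end Pool.Agent.Work.MP_1ce445_ex
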