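import Pool.Agent.Work.MP_1ce445_ex.Interface

set_option autoImplicit false

namespace Pool.Agent.Work.MP_1ce445_ex

open Finset Pool.Agent.Work.MP_1ce445_co_56 Pool.Agent.Work.MP_1ce445_lin

/-- In a factorization into `n - 2` factors every vertex has degree one or two in every factor, and the number of
the factors in which it has degree two is one. -/
theorem UPE_deg {n : ℕ} (h8 : 8 ≤ n) {G : Fin (n - 2) → SimpleGraph (Fin n)} (hG : IsFactorization G)
    (v : Fin n) : (∀ j, 1 ≤ dg (G j) v ∧ dg (G j) v ≤ 2) ∧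
      ∑ j, (if dg (G j) v = 2 then 1 else 0) = 1 := by
  classical
  have hsum : ∑ j, dg (G j) v = n - 1 := by
    have h := sum_degree hG v
    rw [Fintype.card_fin] at h
    rw [← h]
    refine sum_congr rfl fun j _ => ?_
    unfold dg
    congr
  have h1 : ∀ j, 1 ≤ dg (G j) v := by
    intro j
    obtain ⟨w, hw⟩ := hG.minDeg j v
    unfold dg
    rw [Nat.one_le_iff_ne_zero, ← Nat.pos_iff_ne_zero, card_pos]
    exact ⟨w, by simpa using hw⟩
  have hsum1 : ∑ j, (dg (G j) v - 1) = 1 := by
    have h2 : ∑ j, (dg (G j) v - 1) + ∑ _j : Fin (n - 2), 1 = ∑ j, dg (G j) v := by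
      rw [← sum_add_distrib]
      refine sum_congr rfl fun j _ => ?_
      have := h1 j
      omega
    rw [hsum, sum_const, card_univ, Fintype.card_fin, smul_eq_mul, mul_one] at h2
    omega
  have h2 : ∀ j, dg (G j) v ≤ 2 := by
    intro j
    have h3 : dg (G j) v - 1 ≤ ∑ j, (dg (G j) v - 1) :=
      single_le_sum (f := fun j => dg (G j) v - 1) (fun _ _ => Nat.zero_le _) (mem_univ j)
    omega
  refine ⟨fun j => ⟨h1 j, h2 j⟩, ?_⟩
  rw [← hsum1]
  refine sum_congr rfl fun j _ => ?_
  have h3 := h1 j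
  have h4 := h2 j
  split_ifs with h5
  · omega
  · omega

/-- UPE. -/
theorem stmt_UPE (h1 : Stmt_LOS) (h2 : Stmt_OPT) : Stmt_UPE := by
  classical
  intro n hn h8
  refine P_le fun G hG => ?_
  refine h2 n (fun j => (univ.filter (fun v => dg (G j) v = 2)).card) (fun j => gammaT (G j)) hn h8 ?_ ?_ ?_ ?_
  · intro j
    have h := (h1 (G j) (fun v => (UPE_deg h8 hG v).1 j)).2
    rw [Fintype.card_fin] at h
    exact (h hn).1
  · intro j
    have h := (h1 (G j) (fun v => (UPE_deg h8 hG v).1 j)).1
    rw [Fintype.card_fin] at h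
    exact h
  · intro j hj
    have h := (h1 (G j) (fun v => (UPE_deg h8 hG v).1 j)).2
    rw [Fintype.card_fin] at h
    exact (h hn).2 hj
  · calc ∑ j, (univ.filter (fun v => dg (G j) v = 2)).card
        = ∑ j, ∑ v, (if dg (G j) v = 2 then 1 else 0) := by
          refine sum_congr rfl fun j _ => ?_
          rw [card_filter]
      _ = ∑ v, ∑ j, (if dg (G j) v = 2 then 1 else 0) := sum_comm
      _ = ∑ _v : Fin n, 1 := sum_congr rfl fun v _ => (UPE_deg h8 hG v).2
      _ = n := by rw [sum_const, card_univ, Fintype.card_fin, smul_eq_mul, mul_one]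

end Pool.Agent.Work.MP_1ce445_ex
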